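import Pool.Agent.H444Z.Cyc.Ser

set_option autoImplicit false
set_option maxHeartbeats 400000

namespace Pool.Agent.H444Z.Cyc

variable {A : Type} [DecidableEq A] [Fintype A]

noncomputable def opF (t : ℝ) : S A →ₗ[ℝ] S A :=
  t • (LinearMap.mulLeft ℝ X ∘ₗ (T t).toLinearMap + d t)
noncomputable def opA (t : ℝ) (y : A) : S A →ₗ[ℝ] S A :=
  opF t - t • (LinearMap.mulLeft ℝ (x y) ∘ₗ (T t).toLinearMap)
noncomputable def opB (t : ℝ) (a : A) : S A →ₗ[ℝ] S A :=
  opF t - t • LinearMap.mulRight ℝ (x a)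
noncomputable def opR (t : ℝ) (a : A) : S A →ₗ[ℝ] S A :=
  t • (LinearMap.mulLeft ℝ (x a) ∘ₗ (T t).toLinearMap + d t)
noncomputable def opL (t : ℝ) (y : A) : S A →ₗ[ℝ] S A :=
  opF t - t • LinearMap.mulRight ℝ X + t • LinearMap.mulRight ℝ (x y)

theorem opF_ap (t : ℝ) (f : S A) : opF t f = t • (X * T t f + d t f) := rfl
theorem opA_ap (t : ℝ) (y : A) (f : S A) :
    opA t y f = t • (X * T t f + d t f) - t • (x y * T t f) := rfl
theorem opB_ap (t : ℝ) (y : A) (f : S A) :
    opB t y f = t • (X * T t f + d t f) - t • (f * x y) := rfl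
theorem opR_ap (t : ℝ) (y : A) (f : S A) : opR t y f = t • (x y * T t f + d t f) := rfl
theorem opL_ap (t : ℝ) (y : A) (f : S A) :
    opL t y f = t • (X * T t f + d t f) - t • (f * X) + t • (f * x y) := rfl

theorem rzF (t : ℝ) : Rz (opF t : S A →ₗ[ℝ] S A) := ((rz_leftX.compT t).add (rz_d t)).smul t
theorem rzA (t : ℝ) (y : A) : Rz (opA t y) := (rzF t).sub (((rz_left y).compT t).smul t)
theorem rzB (t : ℝ) (y : A) : Rz (opB t y) := (rzF t).sub ((rz_right y).smul t)
theorem rzR (t : ℝ) (y : A) : Rz (opR t y) := (((rz_left y).compT t).add (rz_d t)).smul t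
theorem rzL (t : ℝ) (y : A) : Rz (opL t y) :=
  ((rzF t).sub (rz_rightX.smul t)).add ((rz_right y).smul t)

theorem leibF1 (t : ℝ) (y : A) (f g : S A) :
    opF t (f * g) = opL t y f * T t g + f * opA t y g := by
  simp only [opF_ap, opL_ap, opA_ap, d_mul, map_mul, smul_add, mul_add, add_mul, sub_mul, mul_sub,
    smul_mul_assoc, mul_smul_comm, mul_assoc]
  abel

theorem leibF2 (t : ℝ) (y : A) (f g : S A) :
    opF t (f * g) = opB t y f * T t g + f * opR t y g := by
  simp only [opF_ap, opB_ap, opR_ap, d_mul, map_mul, smul_add, mul_add, add_mul, sub_mul, mul_sub,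
    smul_mul_assoc, mul_smul_comm, mul_assoc]
  abel

theorem leibA (t : ℝ) (y a : A) (f g : S A) :
    opA t y (f * g) = (opA t y f - t • (f * x a)) * T t g + f * opR t a g := by
  simp only [opA_ap, opR_ap, d_mul, map_mul, smul_add, mul_add, add_mul, sub_mul, mul_sub,
    smul_mul_assoc, mul_smul_comm, mul_assoc]
  abel

theorem leibB (t : ℝ) (y a : A) (f g : S A) :
    opB t a (f * g) = opL t y f * T t g + f * (opA t y g - t • (g * x a)) := by
  simp only [opA_ap, opB_ap, opL_ap, d_mul, map_mul, smul_add, mul_add, add_mul, sub_mul, mul_sub,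
    smul_mul_assoc, mul_smul_comm, mul_assoc]
  abel

theorem leibR (t : ℝ) (a : A) (f : S A) : opR t a (x a * f) = x a * opA t a f := by
  simp only [opA_ap, opR_ap, d_mul, d_x, Y, T_x, map_mul, smul_add, mul_add, add_mul, sub_mul,
    mul_sub, smul_mul_assoc, mul_smul_comm, mul_assoc, add_smul, one_smul, smul_sub]
  abel

theorem leibL (t : ℝ) (a : A) (f : S A) : opL t a (f * x a) = t • (opB t a f * x a) := by
  simp only [opB_ap, opL_ap, d_mul, d_x, Y, T_x, map_mul, smul_add, mul_add, add_mul, sub_mul,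
    mul_sub, smul_mul_assoc, mul_smul_comm, mul_assoc, add_smul, one_smul, smul_sub]
  abel

theorem d_single (t : ℝ) (f : S A) (c : A) : d t f [c] = 0 := by
  have := (rz_Y t c).h0
  simp only [LinearMap.mulLeft_apply] at this
  simp [d_cons, this]

theorem mul_x_single (f : S A) (a c : A) : (f * x a) [c] = if c = a then f [] else 0 :=
  mul_x_snoc a c f []

theorem mul_X_single (f : S A) (c : A) : (f * (X : S A)) [c] = f [] := by
  simp [X, Finset.mul_sum, sum_ap, mul_x_single]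

structure Inv (f g : S A) : Prop where
  l : g * f = 1
  r : f * g = 1

theorem Inv.map {f g : S A} (h : Inv f g) (t : ℝ) : Inv (T t f) (T t g) :=
  ⟨by rw [← map_mul, h.l, map_one], by rw [← map_mul, h.r, map_one]⟩

theorem Inv.cl {f g : S A} (h : Inv f g) (k : S A) : g * (f * k) = k := by
  rw [← mul_assoc, h.l, one_mul]

theorem Inv.cr {f g : S A} (h : Inv f g) (k : S A) : f * (g * k) = k := by
  rw [← mul_assoc, h.r, one_mul]

theorem exists_inv {f : S A} (h : f [] = 1) : ∃ g, Inv f g := by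
  obtain ⟨u, rfl⟩ := isUnit_of_nil h
  exact ⟨↑u⁻¹, u.inv_mul, u.mul_inv⟩

structure Sol (A : Type) [DecidableEq A] [Fintype A] where
  t : ℝ
  t0 : 0 < t
  t1 : t < 1
  B : S A
  f : A → S A
  b : A → S A
  z : A → S A
  v : A → S A
  Bi : S A
  fi : A → S A
  bi : A → S A
  zi : A → S A
  vi : A → S A
  B0 : B [] = 1
  f0 : ∀ a, f a [] = 1
  b0 : ∀ a, b a [] = 1
  z0 : ∀ a, z a [] = 1
  v0 : ∀ a, v a [] = 1
  hB : B - T t B = opF t B
  hf : ∀ a, f a - T t (f a) = opA t a (f a)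
  hb : ∀ a, b a - T t (b a) = opB t a (b a)
  hz : ∀ a, z a - T t (z a) = opR t a (z a)
  hv : ∀ a, v a - T t (v a) = opL t a (v a)
  iB : Inv B Bi
  jf : ∀ a, Inv (f a) (fi a)
  ib : ∀ a, Inv (b a) (bi a)
  iz : ∀ a, Inv (z a) (zi a)
  iv : ∀ a, Inv (v a) (vi a)

theorem exists_sol (t : ℝ) (t0 : 0 < t) (t1 : t < 1) : ∃ s : Sol A, s.t = t := by
  obtain ⟨B, B0, hB⟩ := (rzF (A := A) t).ex t0 t1
  choose f f0 hf using fun a : A => (rzA t a).ex t0 t1
  choose b b0 hb using fun a : A => (rzB t a).ex t0 t1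
  choose z z0 hz using fun a : A => (rzR t a).ex t0 t1
  choose v v0 hv using fun a : A => (rzL t a).ex t0 t1
  obtain ⟨Bi, iB⟩ := exists_inv B0
  choose fi jf using fun a => exists_inv (f0 a)
  choose bi ib using fun a => exists_inv (b0 a)
  choose zi iz using fun a => exists_inv (z0 a)
  choose vi iv using fun a => exists_inv (v0 a)
  exact ⟨⟨t, t0, t1, B, f, b, z, v, Bi, fi, bi, zi, vi, B0, f0, b0, z0, v0, hB, hf, hb, hz, hv,
    iB, jf, ib, iz, iv⟩, rfl⟩

namespace Sol

variable (s : Sol A)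

theorem TT (g : S A) : T s.t (T s.t⁻¹ g) = g := S.ext fun w => by
  have := s.t0.ne'
  simp only [T_ap, inv_pow]; field_simp

theorem TT' (g : S A) : T s.t⁻¹ (T s.t g) = g := S.ext fun w => by
  have := s.t0.ne'
  simp only [T_ap, inv_pow]; field_simp

theorem z_eq (a : A) : s.z a - T s.t (s.z a) = s.t • (x a * s.f a) := by
  refine (rzR s.t a).uniq2 s.t0 s.t1 (by simp) (fun c => ?_) ?_ ?_
  · rw [s.hz, opR_ap]
    simp [x_mul_cons, d_single, s.z0, s.f0]
  · conv_lhs => rw [s.hz, (rzR s.t a).T_comm]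
    rw [map_sub, smul_sub]
  · rw [map_smul, map_smul, leibR, ← s.hf, map_mul, T_x]
    simp only [smul_mul_assoc, mul_sub, smul_sub]

theorem v_eq (a : A) : s.v a - T s.t (s.v a) = s.t • (T s.t (s.b a) * x a) := by
  have e : s.t • (T s.t (s.b a) * x a) = T s.t (s.b a * x a) := by
    rw [map_mul, T_x, mul_smul_comm]
  refine (rzL s.t a).uniq2 s.t0 s.t1 (by simp) (fun c => ?_) ?_ ?_
  · rw [s.hv, opL_ap]
    simp [X_mul_cons, mul_x_single, mul_X_single, d_single, s.v0, s.b0]
  · conv_lhs => rw [s.hv, (rzL s.t a).T_comm]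
    rw [map_sub, smul_sub]
  · rw [e, ← (rzL s.t a).T_comm, leibL, ← s.hb]
    simp only [map_smul, map_mul, T_x, map_sub, sub_mul, mul_smul_comm, smul_sub]

theorem B_vf (a : A) : s.B = s.v a * s.f a := by
  refine (rzF s.t).uniq1 s.t0 s.t1 (by simp [s.B0, s.v0, s.f0]) s.hB ?_
  rw [leibF1 s.t a, ← s.hv, ← s.hf, map_mul]
  noncomm_ring

theorem B_bz (a : A) : s.B = s.b a * s.z a := by
  refine (rzF s.t).uniq1 s.t0 s.t1 (by simp [s.B0, s.b0, s.z0]) s.hB ?_
  rw [leibF2 s.t a, ← s.hb, ← s.hz, map_mul]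
  noncomm_ring

theorem B_first : s.B - T s.t s.B = s.t • ∑ a, T s.t (s.b a) * (x a * s.f a) := by
  refine (rzF s.t).uniq2 s.t0 s.t1 (by simp [sum_ap]) (fun c => ?_) ?_ ?_
  · rw [s.hB, opF_ap]
    have : ∀ a, (T s.t (s.b a) * (x a * s.f a)) [c] = if c = a then 1 else 0 := fun a => by
      rw [mul_cons, x_mul_cons]
      simp [s.b0, s.f0]
    simp [X_mul_cons, d_single, s.B0, sum_ap, this]
  · conv_lhs => rw [s.hB, (rzF s.t).T_comm]
    rw [map_sub, smul_sub]
  · rw [map_smul, map_smul, ← smul_sub, map_sum, map_sum, Finset.smul_sum, Finset.smul_sum,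
      ← Finset.sum_sub_distrib]
    congr 1
    refine Finset.sum_congr rfl fun a _ => ?_
    have h := (rzB s.t a).T_comm s.t (s.b a)
    rw [← s.hb, map_sub] at h
    rw [leibF2 s.t a, leibR, ← s.hf, map_mul (T s.t) (x a), T_x, smul_mul_assoc, mul_smul_comm,
      ← smul_mul_assoc s.t (opB s.t a _), ← h]
    simp only [map_mul, T_x, smul_mul_assoc, mul_smul_comm, mul_sub, sub_mul, smul_sub, smul_add]
    abel

noncomputable def G (y a : A) : S A := if y = a then 0 else s.f y * s.zi a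

theorem fz (y a : A) : s.f y * s.zi a = s.vi y * s.b a := by
  have h := (s.B_vf y).symm.trans (s.B_bz a)
  calc s.f y * s.zi a = s.vi y * (s.v y * s.f y) * s.zi a := by rw [(s.iv y).cl]
    _ = s.vi y * s.b a := by rw [h, mul_assoc, mul_assoc, (s.iz a).r, mul_one]

theorem G_self (a : A) : s.G a a = 0 := by simp [G]

theorem G_ne {y a : A} (h : y ≠ a) : s.G y a = s.f y * s.zi a := by simp [G, h]

theorem G_eq (y a : A) : s.G y a = s.f y * s.zi a - if y = a then s.f y * s.zi a else 0 := by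
  by_cases h : y = a <;> simp [G, h]

theorem zi0 (a : A) : s.zi a [] = 1 := by
  have := congrFun (s.iz a).l []
  simpa [s.z0] using this

theorem f_first (y : A) :
    s.f y - T s.t (s.f y) = s.t • ∑ a, T s.t (s.G y a) * (x a * s.f a) := by
  have h1 := s.B_first
  have h2 := s.v_eq y
  have h3 : ∑ a, T s.t (s.G y a) * (x a * s.f a) =
      T s.t (s.vi y) * (∑ a, T s.t (s.b a) * (x a * s.f a) - T s.t (s.b y) * (x y * s.f y)) := by
    simp only [G_eq, fz, map_sub, sub_mul, Finset.sum_sub_distrib, mul_sub, Finset.mul_sum, map_mul,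
      mul_assoc]
    congr 1
    rw [Finset.sum_eq_single y] <;> simp +contextual [mul_assoc, eq_comm]
  rw [h3, ← mul_smul_comm, smul_sub, ← h1, ← mul_assoc, ← smul_mul_assoc, ← h2, s.B_vf y, map_mul]
  have := ((s.iv y).map s.t).cl
  calc _ = T s.t (s.vi y) * (T s.t (s.v y) * (s.f y - T s.t (s.f y))) := (this _).symm
    _ = _ := by noncomm_ring

theorem b_first (a : A) :
    s.b a - T s.t (s.b a) = s.t • ∑ y, T s.t (s.b y) * (x y * s.G y a) := by
  have h1 := s.B_first
  have h2 := s.z_eq a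
  have h3 : ∑ y, T s.t (s.b y) * (x y * s.G y a) =
      (∑ y, T s.t (s.b y) * (x y * s.f y) - T s.t (s.b a) * (x a * s.f a)) * s.zi a := by
    simp only [G_eq, sub_mul, Finset.sum_sub_distrib, mul_sub, Finset.sum_mul, mul_assoc]
    congr 1
    rw [Finset.sum_eq_single a] <;> simp +contextual [mul_assoc]
  rw [h3, ← smul_mul_assoc, smul_sub, ← h1, ← mul_smul_comm, ← h2, s.B_bz a, map_mul]
  calc _ = (s.b a - T s.t (s.b a)) * (s.z a * s.zi a) := by rw [(s.iz a).r, mul_one]
    _ = _ := by noncomm_ring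

theorem riccati {y a : A} (h : y ≠ a) :
    s.G y a - T s.t (s.G y a) = s.t • ∑ c, T s.t (s.G y c) * (x c * s.G c a) := by
  have h1 := s.f_first y
  have h2 := s.z_eq a
  have h3 : ∑ c, T s.t (s.G y c) * (x c * s.G c a) =
      (∑ c, T s.t (s.G y c) * (x c * s.f c) - T s.t (s.G y a) * (x a * s.f a)) * s.zi a := by
    conv_lhs => enter [2, c, 2, 2]; rw [s.G_eq c a]
    simp only [sub_mul, Finset.sum_sub_distrib, mul_sub, Finset.sum_mul, mul_assoc]
    congr 1
    rw [Finset.sum_eq_single a] <;> simp +contextual [mul_assoc]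
  rw [h3, ← smul_mul_assoc, smul_sub, ← h1, ← mul_smul_comm, ← h2, s.G_ne h, map_mul]
  have e1 := (s.iz a).r
  have e2 := ((s.iz a).map s.t).l
  calc _ = s.f y * s.zi a - T s.t (s.f y) * s.zi a - T s.t (s.f y) * T s.t (s.zi a) *
        (s.z a * s.zi a) + T s.t (s.f y) * (T s.t (s.zi a) * T s.t (s.z a)) * s.zi a := by
        rw [e1, e2]; noncomm_ring
    _ = _ := by noncomm_ring

theorem G_del (y a : A) :
    s.G y a - T s.t (s.G y a) = opA s.t y (s.G y a) - s.t • (s.G y a * x a) := by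
  by_cases h : y = a
  · simp [h, G_self]
  have e : s.G y a * s.z a = s.f y := by rw [s.G_ne h, mul_assoc, (s.iz a).l, mul_one]
  have h1 := leibA s.t y a (s.G y a) (s.z a)
  rw [e, ← s.hf, ← s.hz, ← e, map_mul] at h1
  have e2 := ((s.iz a).map s.t).r
  have h2 : (s.G y a - T s.t (s.G y a)) * T s.t (s.z a) =
      (opA s.t y (s.G y a) - s.t • (s.G y a * x a)) * T s.t (s.z a) := by
    rw [← sub_eq_iff_eq_add] at h1
    rw [← h1]; noncomm_ring
  calc _ = (s.G y a - T s.t (s.G y a)) * T s.t (s.z a) * T s.t (s.zi a) := by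
        rw [mul_assoc, e2, mul_one]
    _ = _ := by rw [h2, mul_assoc, e2, mul_one]

def IsL (c : ℝ) (Γ : A → A → S A) : Prop :=
  ∀ y a, Γ y a = s.G y a + c • ∑ e, s.G y e * (x e * Γ e a)

def IsR (c : ℝ) (Γ : A → A → S A) : Prop :=
  ∀ y a, Γ y a = s.G y a + c • ∑ e, Γ y e * (x e * s.G e a)

end Sol

theorem fam_zero {I : Type} {f : I → S A} (h : ∀ n, (∀ i, Van n (f i)) → ∀ i, Van (n + 1) (f i))
    (i : I) : f i = 0 := by
  have : ∀ n i, Van n (f i) := fun n => Nat.rec (fun i => van_zero _) h n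
  exact S.ext fun w => this _ i w (Nat.lt_succ_self _)

theorem van_sandL {n : ℕ} {g : S A} (hg : Van n g) (f : S A) (e : A) :
    Van (n + 1) (f * (x e * g)) := by
  have := (van_x e).mul hg
  rw [add_comm] at this
  exact this.lmul f

theorem van_sandR {n : ℕ} {g : S A} (hg : Van n g) (f : S A) (e : A) :
    Van (n + 1) (g * (x e * f)) := hg.mul ((van_x e).rmul f)

namespace Sol

variable (s : Sol A)

theorem IsL.isR {s : Sol A} {c : ℝ} {Γ : A → A → S A} (h : s.IsL c Γ) : s.IsR c Γ := by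
  let R : A × A → S A := fun p => Γ p.1 p.2 - (s.G p.1 p.2 + c • ∑ e, Γ p.1 e * (x e * s.G e p.2))
  have key : ∀ y a, R (y, a) = c • ∑ e, s.G y e * (x e * R (e, a)) := by
    intro y a
    simp only [R]
    conv_lhs => rw [h y a]; enter [2, 2, 2, 2, e]; rw [h y e]
    simp only [mul_sub, mul_add, add_mul, Finset.sum_sub_distrib, Finset.sum_add_distrib, smul_sub,
      smul_add, mul_smul_comm, smul_mul_assoc, Finset.mul_sum, Finset.sum_mul, mul_assoc,
      ← Finset.smul_sum]
    rw [Finset.sum_comm]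
    abel
  intro y a
  have := fam_zero (f := R) (fun n hn p => by
    obtain ⟨y, a⟩ := p
    rw [key]
    exact (Van.sum _ fun e => van_sandL (hn _) _ _).smul c) (y, a)
  exact sub_eq_zero.mp this

theorem IsR.uniq {s : Sol A} {c : ℝ} {Γ Γ' : A → A → S A} (h : s.IsR c Γ) (h' : s.IsR c Γ')
    (y a : A) : Γ y a = Γ' y a := by
  have := fam_zero (f := fun p : A × A => Γ p.1 p.2 - Γ' p.1 p.2) (fun n hn p => by
    obtain ⟨y, a⟩ := p
    have e : Γ y a - Γ' y a = c • ∑ e, (Γ y e - Γ' y e) * (x e * s.G e a) := by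
      rw [h y a, h' y a]
      simp only [sub_mul, Finset.sum_sub_distrib, smul_sub]
      abel
    simp only
    rw [e]
    exact (Van.sum _ fun e => van_sandR (hn (y, e)) _ _).smul c) (y, a)
  exact sub_eq_zero.mp this

theorem exists_L (c : ℝ) : ∃ Γ, s.IsL c Γ := by
  obtain ⟨Γ, h⟩ := exists_fix (I := A × A)
    (fun Γ p => s.G p.1 p.2 + c • ∑ e, s.G p.1 e * (x e * Γ (e, p.2))) (by
      intro n Γ Γ' hh p
      have := (Van.sum Finset.univ fun e => van_sandL (hh (e, p.2)) (s.G p.1 e) e).smul c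
      convert this using 1
      simp only [mul_sub, Finset.sum_sub_distrib, smul_sub]
      abel)
  exact ⟨fun y a => Γ (y, a), fun y a => (congrFun h (y, a)).symm⟩

theorem v_eq' (a : A) : T s.t⁻¹ (s.v a) = s.v a + s.b a * x a := by
  have := congrArg (T s.t⁻¹) (s.v_eq a)
  rw [map_sub, map_smul, map_mul, s.TT', s.TT', T_x, mul_smul_comm, smul_smul,
    mul_inv_cancel₀ s.t0.ne', one_smul] at this
  rw [← this]; abel

theorem zf (a : A) : s.z a * s.fi a = s.bi a * s.v a := by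
  have h := (s.B_vf a).symm.trans (s.B_bz a)
  calc s.z a * s.fi a = s.bi a * (s.b a * s.z a) * s.fi a := by rw [(s.ib a).cl]
    _ = _ := by rw [← h, mul_assoc, mul_assoc, (s.jf a).r, mul_one]

noncomputable def Γp (y a : A) : S A :=
  T s.t⁻¹ (s.f y) * (s.fi a * (T s.t⁻¹ (s.vi a) * s.b a)) -
    if y = a then T s.t⁻¹ (s.vi a) * s.b a else 0

noncomputable def Γm (y a : A) : S A :=
  s.f y * T s.t (s.zi y) * s.bi y * T s.t (s.b a) - if y = a then s.f y * T s.t (s.zi y) else 0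

theorem isL_p : s.IsL 1 s.Γp := by
  intro y a
  have h1 := congrArg (T s.t⁻¹) (s.f_first y)
  simp only [map_sub, map_smul, map_sum, map_mul, s.TT', T_x, mul_smul_comm, smul_mul_assoc,
    ← Finset.smul_sum, smul_smul, mul_inv_cancel₀ s.t0.ne', one_smul] at h1
  have h3 : ∑ e, s.G y e * (x e * s.Γp e a) =
      (∑ e, s.G y e * (x e * T s.t⁻¹ (s.f e))) * (s.fi a * (T s.t⁻¹ (s.vi a) * s.b a)) -
        s.G y a * (x a * (T s.t⁻¹ (s.vi a) * s.b a)) := by
    simp only [Γp, mul_sub, Finset.sum_sub_distrib, Finset.sum_mul, mul_assoc]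
    congr 1
    rw [Finset.sum_eq_single a] <;> simp +contextual
  rw [one_smul, h3, ← h1, Γp]
  by_cases h : y = a
  · subst h
    rw [if_pos rfl, G_self, sub_mul, (s.jf y).cr]
    simp
  · rw [if_neg h, s.G_ne h]
    have e1 : s.fi a = s.zi a * (s.bi a * s.v a) := by rw [← s.zf, (s.iz a).cl]
    have e2 : s.bi a * ((s.v a + s.b a * x a) * (T s.t⁻¹ (s.vi a) * s.b a)) = 1 := by
      rw [← s.v_eq', ((s.iv a).map _).cr, (s.ib a).l]
    have e3 : s.f y * s.zi a = s.f y * (s.fi a * (T s.t⁻¹ (s.vi a) * s.b a)) +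
        s.f y * s.zi a * (x a * (T s.t⁻¹ (s.vi a) * s.b a)) := by
      calc _ = s.f y * s.zi a *
            (s.bi a * ((s.v a + s.b a * x a) * (T s.t⁻¹ (s.vi a) * s.b a))) := by rw [e2, mul_one]
        _ = _ := by
          rw [e1]
          simp only [add_mul, mul_add, mul_assoc, (s.ib a).cl]
    nth_rewrite 1 [e3]
    noncomm_ring

theorem isR_m : s.IsR (-s.t) s.Γm := by
  intro y a
  have h1 := s.b_first a
  have h3 : ∑ e, s.Γm y e * (x e * s.G e a) =
      s.f y * T s.t (s.zi y) * s.bi y * (∑ e, T s.t (s.b e) * (x e * s.G e a)) -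
        s.f y * T s.t (s.zi y) * (x y * s.G y a) := by
    simp only [Γm, sub_mul, Finset.sum_sub_distrib, Finset.mul_sum, mul_assoc]
    congr 1
    rw [Finset.sum_eq_single y] <;> simp +contextual [eq_comm, mul_assoc]
  rw [h3, neg_smul, smul_sub, ← mul_smul_comm, ← h1, Γm]
  by_cases h : y = a
  · subst h
    rw [if_pos rfl, G_self, mul_sub, mul_assoc _ (s.bi y) (s.b y), (s.ib y).l]
    simp
  · rw [if_neg h, s.G_ne h]
    have e0 : T s.t (s.z y) = s.z y - s.t • (x y * s.f y) := by rw [← s.z_eq]; abel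
    have e1 : s.bi y * s.b a = s.z y * s.zi a := by
      calc _ = s.bi y * s.v y * (s.vi y * s.b a) := by rw [mul_assoc, (s.iv y).cr]
        _ = _ := by rw [← s.zf, ← s.fz, mul_assoc, (s.jf y).cl]
    have e3 : s.f y * s.zi a = s.f y * T s.t (s.zi y) * (s.bi y * s.b a) -
        s.t • (s.f y * T s.t (s.zi y) * (x y * (s.f y * s.zi a))) := by
      calc _ = s.f y * (T s.t (s.zi y) * (T s.t (s.z y) * s.zi a)) := by
            rw [((s.iz y).map _).cl]
        _ = _ := by
          rw [e0, e1]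
          simp only [sub_mul, mul_sub, mul_assoc, smul_mul_assoc, mul_smul_comm]
    nth_rewrite 1 [e3]
    noncomm_ring

theorem main_sum :
    ∑ a, T s.t⁻¹ (s.v a) * ((s.Γp a a + s.t • s.Γm a a) * T s.t (s.z a)) =
      (Fintype.card A : ℝ) • (T s.t⁻¹ s.B - (1 + s.t) • s.B + s.t • T s.t s.B) -
        (1 + s.t) • (T s.t⁻¹ s.B - (2 : ℝ) • s.B + T s.t s.B) := by
  set t := s.t with ht
  let p : A → S A := fun a => s.b a * (x a * s.f a)
  let W : A → S A := fun a => s.fi a * T t⁻¹ (s.vi a)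
  let V : A → S A := fun a => T t (s.zi a) * s.bi a
  have hp1 : ∀ a, T t⁻¹ (s.v a) * s.f a = s.B + p a := fun a => by
    rw [s.v_eq', add_mul, ← s.B_vf, mul_assoc]
  have hp2 : ∀ a, s.b a * T t (s.z a) = s.B - t • p a := fun a => by
    have e0 : T s.t (s.z a) = s.z a - s.t • (x a * s.f a) := by rw [← s.z_eq]; abel
    rw [e0, mul_sub, ← s.B_bz, mul_smul_comm]
  have hW : ∀ a, Inv (s.B + p a) (W a) := fun a => by
    rw [← hp1]
    exact ⟨by simp only [W, mul_assoc, ((s.iv a).map _).cl, (s.jf a).l],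
      by simp only [W, mul_assoc, (s.jf a).cr, ((s.iv a).map _).r]⟩
  have hV : ∀ a, Inv (s.B - t • p a) (V a) := fun a => by
    rw [← hp2]
    exact ⟨by simp only [V, mul_assoc, (s.ib a).cl, ((s.iz a).map _).l],
      by simp only [V, mul_assoc, ((s.iz a).map _).cr, (s.ib a).r]⟩
  have s1 : ∑ a, p a * W a * T t⁻¹ s.B = T t⁻¹ s.B - s.B := by
    have h1 := congrArg (T s.t⁻¹) s.B_first
    simp only [map_sub, map_smul, map_sum, map_mul, s.TT', T_x, mul_smul_comm, smul_mul_assoc,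
      ← Finset.smul_sum, smul_smul, mul_inv_cancel₀ s.t0.ne', one_smul] at h1
    rw [h1]
    refine Finset.sum_congr rfl fun a _ => ?_
    rw [s.B_vf a, map_mul]
    simp only [p, W, mul_assoc, (s.jf a).cr, ((s.iv a).map _).cl, ht]
  have s2 : ∑ a, T t s.B * (V a * t • p a) = s.B - T t s.B := by
    rw [s.B_first, Finset.smul_sum]
    refine Finset.sum_congr rfl fun a _ => ?_
    rw [s.B_bz a, map_mul]
    simp only [p, V, mul_assoc, (s.ib a).cl, ((s.iz a).map _).cr, mul_smul_comm, ht]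
  have c1 : ∀ a, W a * p a = s.Bi * (p a * W a) * s.B := fun a => by
    have l := (hW a).l
    have r := (hW a).r
    have e1 : W a * p a = 1 - W a * s.B := by rw [← l]; noncomm_ring
    have e2 : p a * W a = 1 - s.B * W a := by rw [← r]; noncomm_ring
    rw [e1, e2, mul_sub, s.iB.cl, mul_one, sub_mul, s.iB.l]
  have c2 : ∀ a, t • p a * V a = s.B * (V a * t • p a) * s.Bi := fun a => by
    have l := (hV a).l
    have r := (hV a).r
    have e1 : V a * t • p a = V a * s.B - 1 := by rw [← l]; noncomm_ring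
    have e2 : t • p a * V a = s.B * V a - 1 := by rw [← r]; noncomm_ring
    rw [e1, e2, mul_sub, mul_one, sub_mul, s.iB.r, mul_assoc, mul_assoc, s.iB.r, mul_one]
  have s1' : ∑ a, T t⁻¹ s.B * (W a * p a) = T t⁻¹ s.B - s.B := by
    have : ∑ a, T t⁻¹ s.B * (W a * p a) =
        T t⁻¹ s.B * s.Bi * (∑ a, p a * W a * T t⁻¹ s.B) * (T t⁻¹ s.Bi * s.B) := by
      simp only [c1, Finset.mul_sum, Finset.sum_mul, mul_assoc, (s.iB.map _).cr]
    rw [this, s1]
    simp only [mul_sub, sub_mul, mul_assoc, (s.iB.map _).cr, s.iB.cl, s.iB.l, mul_one]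
  have s2' : ∑ a, t • p a * V a * T t s.B = s.B - T t s.B := by
    have : ∑ a, t • p a * V a * T t s.B =
        s.B * T t s.Bi * (∑ a, T t s.B * (V a * t • p a)) * (s.Bi * T t s.B) := by
      simp only [c2, Finset.mul_sum, Finset.sum_mul, mul_assoc, (s.iB.map _).cl]
    rw [this, s2]
    simp only [mul_sub, sub_mul, mul_assoc, (s.iB.map _).cl, s.iB.cr, (s.iB.map _).l, mul_one]
  have term : ∀ a, T t⁻¹ (s.v a) * ((s.Γp a a + t • s.Γm a a) * T t (s.z a)) =
      (T t⁻¹ s.B - (1 + t) • s.B + t • T t s.B) - (1 + t) • (T t⁻¹ s.B * (W a * p a)) +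
        (1 + t) • (t • p a * V a * T t s.B) := fun a => by
    have a1 : T t⁻¹ (s.v a) * (s.Γp a a * T t (s.z a)) =
        T t⁻¹ s.B * (W a * (s.B - t • p a)) - (s.B - t • p a) := by
      rw [← hp2, s.B_vf a, map_mul]
      simp only [Γp, W, if_true, sub_mul, mul_sub, mul_assoc, ((s.iv a).map _).cr, ht]
    have a2 : T t⁻¹ (s.v a) * (s.Γm a a * T t (s.z a)) =
        (s.B + p a) * V a * T t s.B - (s.B + p a) := by
      rw [← hp1, s.B_bz a, map_mul]
      simp only [Γm, V, if_true, sub_mul, mul_sub, mul_assoc, ((s.iz a).map _).l, mul_one, ht]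
    have a3 : W a * (s.B - t • p a) = 1 - (1 + t) • (W a * p a) := by
      rw [← (hW a).l]
      simp only [mul_sub, mul_add, add_smul, one_smul, mul_smul_comm]
      abel
    have a4 : (s.B + p a) * V a = 1 + (1 + t) • (p a * V a) := by
      rw [← (hV a).r]
      simp only [sub_mul, add_mul, add_smul, one_smul, smul_mul_assoc]
      abel
    rw [add_mul, mul_add, smul_mul_assoc, mul_smul_comm, a1, a2, a3, a4]
    simp only [mul_sub, add_mul, mul_one, one_mul, smul_mul_assoc, mul_smul_comm]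
    module
  simp only [term, Finset.sum_add_distrib, Finset.sum_sub_distrib, ← Finset.smul_sum, s1', s2',
    Finset.sum_const, Finset.card_univ, ← Nat.cast_smul_eq_nsmul ℝ]
  module

end Sol

end Pool.Agent.H444Z.Cyc
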