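import Pool.Agent.H444Z.Cyc.Pos
import Pool.Agent.H444Z.BF.Prod

set_option autoImplicit false
set_option maxHeartbeats 400000

namespace Pool.Agent.H444Z.Cyc

open MeasureTheory ProbabilityTheory

variable {A : Type} [Fintype A] [DecidableEq A]

noncomputable def ev : List (Option A) → (List A → ℝ) → ℝ
  | [], F => F []
  | some a :: p, F => ev p (fun w => F (a :: w))
  | none :: p, F => ∑ a, ev p (fun w => F (a :: w))

omit [DecidableEq A] in
theorem ev_congr (p : List (Option A)) : ∀ F G : List A → ℝ,
    (∀ w, w.length = p.length → F w = G w) → ev p F = ev p G := by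
  induction p with
  | nil => intro F G h; exact h [] rfl
  | cons o p ih =>
    intro F G h
    cases o with
    | none => exact Finset.sum_congr rfl fun a _ => ih _ _ fun w hw => h _ (by simp [hw])
    | some a => exact ih _ _ fun w hw => h _ (by simp [hw])

omit [DecidableEq A] in
theorem ev_mul (c : ℝ) (p : List (Option A)) : ∀ F : List A → ℝ,
    ev p (fun w => c * F w) = c * ev p F := by
  induction p with
  | nil => intro F; rfl
  | cons o p ih =>
    intro F
    cases o with
    | none => simp only [ev, ih, Finset.mul_sum]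
    | some a => simp only [ev, ih]

omit [DecidableEq A] in
theorem ev_sum (p : List (Option A)) : ∀ F : A → List A → ℝ,
    ev p (fun w => ∑ a, F a w) = ∑ a, ev p (F a) := by
  induction p with
  | nil => intro F; rfl
  | cons o p ih =>
    intro F
    cases o with
    | none => simp only [ev, ih]; exact Finset.sum_comm
    | some a => simp only [ev, ih]

omit [DecidableEq A] in
theorem ev_snoc (o : Option A) (p : List (Option A)) : ∀ F : List A → ℝ,
    ev (p ++ [o]) F = ev p (fun w => ev [o] (fun r => F (w ++ r))) := by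
  induction p with
  | nil => intro F; rfl
  | cons o' p ih =>
    intro F
    cases o' with
    | none => simp only [List.cons_append, ev, ih]
    | some a => simp only [List.cons_append, ev, ih]

omit [DecidableEq A] in
theorem ev_rot (m : List A → ℝ) (h : ∀ w a, m (w ++ [a]) = m (a :: w)) (o : Option A)
    (p : List (Option A)) : ev (p ++ [o]) m = ev (o :: p) m := by
  rw [ev_snoc]
  cases o with
  | none => simp only [ev, h, ev_sum]
  | some a => simp only [ev, h]

def win {β : Type} (f : ℕ → β) : ℕ → ℕ → List β
  | _, 0 => []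
  | s, k + 1 => f s :: win f (s + 1) k

theorem win_length {β : Type} (f : ℕ → β) (k : ℕ) : ∀ s, (win f s k).length = k := by
  induction k with
  | zero => intro s; rfl
  | succ k ih => intro s; simp [win, ih]

theorem win_snoc {β : Type} (f : ℕ → β) (k : ℕ) : ∀ s,
    win f s (k + 1) = win f s k ++ [f (s + k)] := by
  induction k with
  | zero => intro s; rfl
  | succ k ih =>
    intro s
    rw [win, ih, win, show s + 1 + k = s + (k + 1) by ring]; rfl

theorem win_ofFn {β : Type} (f : ℕ → β) (k : ℕ) : ∀ s,
    win f s k = List.ofFn (fun i : Fin k => f (s + i)) := by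
  induction k with
  | zero => intro s; simp [win]
  | succ k ih =>
    intro s
    rw [win, ih, List.ofFn_succ]
    simp [add_assoc, add_comm 1]

theorem win_rot {β : Type} (Φ : List β → ℝ) (h : ∀ w a, Φ (w ++ [a]) = Φ (a :: w)) (f : ℕ → β)
    (k : ℕ) (hf : ∀ i, f (i + (k + 1)) = f i) (s : ℕ) :
    Φ (win f s (k + 1)) = Φ (win f 0 (k + 1)) := by
  induction s with
  | zero => rfl
  | succ s ih =>
    rw [← ih, win_snoc, h, show s + 1 + k = s + (k + 1) by ring, hf]; rfl

omit [DecidableEq A] in
theorem ev_line (P : List A → ℝ) (P0 : P [] = 1) (hP : ∀ u v, ∑ a, P (u ++ a :: v) = P u * P v)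
    (f g : ℕ → Option A) (h1 : ∀ i, f i = none ∨ g i = none)
    (h2 : ∀ i, f i = none ∨ g (i + 1) = none) (h3 : ∀ i, g i = none ∨ f (i + 1) = none)
    (k : ℕ) : ∀ (s : ℕ) (u u' : List A), (u = [] ∨ u' = []) → (u = [] ∨ g s = none) →
      (u' = [] ∨ f s = none) →
      ev (win (fun i => (f i).or (g i)) s k) (fun w => P (u ++ u' ++ w)) =
        ev (win f s k) (fun w => P (u ++ w)) * ev (win g s k) (fun w => P (u' ++ w)) := by
  have key : ∀ (p : List (Option A)) (u : List A),
      ev (none :: p) (fun w => P (u ++ w)) = P u * ev p (fun w => P ([] ++ w)) := by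
    intro p u
    rw [ev, ← ev_sum, ← ev_mul]
    simp only [hP, List.nil_append]
  have hu : ∀ u u' : List A, (u = [] ∨ u' = []) → P (u ++ u') = P u * P u' := by
    rintro u u' (rfl | rfl) <;> simp [P0]
  induction k with
  | zero => intro s u u' h _ _; simpa [win, ev] using hu u u' h
  | succ k ih =>
    intro s u u' a1 a2 a3
    simp only [win]
    rcases hf : f s with _ | a <;> rcases hg : g s with _ | b
    · have := ih (s + 1) [] [] (Or.inl rfl) (Or.inl rfl) (Or.inl rfl)
      rw [Option.none_or, key, key, key, hu u u' a1]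
      simp only [List.append_nil] at this
      rw [this]; ring
    · have e : u = [] := a2.resolve_right (by simp [hg])
      subst e
      have := ih (s + 1) [] (u' ++ [b]) (Or.inl rfl) (Or.inl rfl)
        (Or.inr ((h3 s).resolve_left (by simp [hg])))
      rw [Option.none_or, key, P0, one_mul]
      simpa [ev] using this
    · have e : u' = [] := a3.resolve_right (by simp [hf])
      subst e
      have := ih (s + 1) (u ++ [a]) [] (Or.inr rfl)
        (Or.inr ((h2 s).resolve_left (by simp [hf]))) (Or.inl rfl)
      rw [key, P0, one_mul]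
      simpa [ev] using this
    · have := h1 s
      simp [hf, hg] at this

theorem ev_ofFn (n : ℕ) : ∀ (p : Fin n → Option A) (F : List A → ℝ),
    ev (List.ofFn p) F =
      ∑ y : Fin n → A, if (∀ i c, p i = some c → y i = c) then F (List.ofFn y) else 0 := by
  induction n with
  | zero => intro p F; simp [ev]
  | succ n ih =>
    intro p F
    rw [List.ofFn_succ, ← (Fin.consEquiv fun _ : Fin (n + 1) => A).sum_comp, Fintype.sum_prod_type]
    simp only [Fin.consEquiv_apply, Fin.forall_fin_succ, Fin.cons_zero, Fin.cons_succ,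
      List.ofFn_succ]
    rcases hp : p 0 with _ | a
    · simp [ev, ih]
    · rw [ev, ih, Finset.sum_eq_single a]
      · simp
      · intro b _ hb
        simp [hb]
      · simp

theorem cyc_of_weights [MeasurableSpace A] [MeasurableSingletonClass A] (N : ℕ) (hN : 1 ≤ N)
    (m P : List A → ℝ) (m0 : ∀ w, 0 ≤ m w) (mr : ∀ w a, m (w ++ [a]) = m (a :: w))
    (mp : ∀ a w, m (a :: a :: w) = 0) (ms : ∀ (σ : Equiv.Perm A) w, m (w.map σ) = m w)
    (mm : ∀ w, w.length = N → ∑ a, m (w ++ [a]) = P w) (P0 : P [] = 1)
    (hP : ∀ u v, ∑ a, P (u ++ a :: v) = P u * P v) :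
    ∃ μ : Measure (Fin (N + 1) → A), IsProbabilityMeasure μ ∧
      (∀ᵐ x ∂μ, ∀ i j : Fin (N + 1), (SimpleGraph.cycleGraph (N + 1)).Adj i j → x i ≠ x j) ∧
      (∀ σ : Equiv.Perm A, μ.map (fun x : Fin (N + 1) → A => σ ∘ x) = μ) ∧
      (∀ U V : Set (Fin (N + 1)),
        (∀ a ∈ U, ∀ b ∈ V, 1 < (SimpleGraph.cycleGraph (N + 1)).dist a b) →
        IndepFun (fun x : Fin (N + 1) → A => fun a : U => x a)
          (fun x : Fin (N + 1) → A => fun b : V => x b) μ) := by
  classical
  let μ : Measure (Fin (N + 1) → A) :=
    ∑ y : Fin (N + 1) → A, ENNReal.ofReal (m (List.ofFn y)) • Measure.dirac y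
  have hμ : ∀ E : Set (Fin (N + 1) → A),
      μ E = ENNReal.ofReal (∑ y, if y ∈ E then m (List.ofFn y) else 0) := by
    intro E
    rw [ENNReal.ofReal_sum_of_nonneg (fun y _ => by split_ifs <;> simp [m0])]
    simp only [μ, Measure.finset_sum_apply, Measure.smul_apply, Measure.dirac_apply, smul_eq_mul,
      Set.indicator]
    refine Finset.sum_congr rfl fun y _ => ?_
    split_ifs <;> simp
  let r : ℕ → Fin (N + 1) := fun i => ⟨i % (N + 1), Nat.mod_lt _ (Nat.succ_pos _)⟩
  have r1 : ∀ i, r (i + (N + 1)) = r i := fun i => by simp [r]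
  have r2 : ∀ i : Fin (N + 1), r i = i := fun i => by simp [r, Nat.mod_eq_of_lt i.2]
  have r3 : ∀ i, r (i + 1) = r i + 1 := fun i => by
    apply Fin.ext
    simp [r, Fin.val_add]
  have hwin : ∀ {β : Type} (y : Fin (N + 1) → β), List.ofFn y = win (y ∘ r) 0 (N + 1) := by
    intro β y
    rw [win_ofFn]
    simp [r2]
  have hev : ∀ (p : Fin (N + 1) → Option A) (s : ℕ), p (r s) = none →
      ev (List.ofFn p) m = ev (win (p ∘ r) (s + 1) N) (fun w => P ([] ++ w)) := by
    intro p s hs
    rw [hwin, ← win_rot (fun l => ev l m) (fun w a => ev_rot m mr a w) (p ∘ r) N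
      (fun i => by simp [r1]) (s + 1), win_snoc, ev_snoc,
      show s + 1 + N = s + (N + 1) by ring, Function.comp_apply, r1, hs]
    refine ev_congr _ _ _ fun w hw => ?_
    rw [win_length] at hw
    simpa [ev] using mm w hw
  have hadj : ∀ i : Fin (N + 1), (SimpleGraph.cycleGraph (N + 1)).Adj i (i + 1) := by
    obtain ⟨K, rfl⟩ : ∃ K, N = K + 1 := ⟨N - 1, by omega⟩
    intro i
    rw [SimpleGraph.cycleGraph_adj]
    simp
  have htot : ev (List.ofFn fun _ : Fin (N + 1) => none) m = 1 := by
    rw [hev _ 0 rfl]
    generalize 0 + 1 = s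
    clear hev hwin r3 r2 r1 hμ hadj
    generalize hf : ((fun _ : Fin (N + 1) => (none : Option A)) ∘ r) = f
    have hf' : ∀ i, f i = none := fun i => by rw [← hf]; rfl
    clear hf
    generalize N = k
    induction k generalizing s with
    | zero => simpa [win, ev] using P0
    | succ k ih =>
      rw [win, hf', ev, ← ev_sum, ← ih (s + 1)]
      refine ev_congr _ _ _ fun w _ => ?_
      simpa [P0] using hP [] w
  have hprob : IsProbabilityMeasure μ := ⟨by
    rw [hμ]
    rw [ev_ofFn] at htot
    simp only [Set.mem_univ, if_true]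
    simp only [reduceCtorEq, false_implies, implies_true, if_true] at htot
    rw [htot, ENNReal.ofReal_one]⟩
  refine ⟨μ, hprob, ?_, fun σ => ?_, fun U V hUV => ?_⟩
  · rw [ae_iff, hμ, Finset.sum_eq_zero, ENNReal.ofReal_zero]
    intro y _
    split_ifs with hy
    · simp only [Set.mem_setOf_eq, not_forall, not_not] at hy
      obtain ⟨i, j, hij, e⟩ := hy
      obtain ⟨K, rfl⟩ : ∃ K, N = K + 1 := ⟨N - 1, by omega⟩
      have key : ∀ i : Fin (K + 2), y i = y (i + 1) → m (List.ofFn y) = 0 := by
        intro i e
        rw [hwin, ← win_rot m mr (y ∘ r) (K + 1) (fun i => by simp [r1]) i, win, win]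
        simp only [Function.comp_apply, r3, r2, ← e, mp]
      rw [SimpleGraph.cycleGraph_adj] at hij
      rcases hij with h | h
      · exact key j (by rw [← h, add_sub_cancel, e])
      · exact key i (by rw [← h, add_sub_cancel, e])
    · rfl
  · refine Measure.ext fun E hE => ?_
    rw [Measure.map_apply (measurable_of_finite _) hE, hμ, hμ]
    congr 1
    refine Fintype.sum_equiv (Equiv.arrowCongr (Equiv.refl _) σ) _ _ fun y => ?_
    have : List.ofFn ((Equiv.arrowCongr (Equiv.refl _) σ) y) = (List.ofFn y).map σ := by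
      rw [List.map_ofFn]; rfl
    rw [this, ms]
    rfl
  · rw [indepFun_iff_map_prod_eq_prod_map_map (measurable_of_finite _).aemeasurable
      (measurable_of_finite _).aemeasurable]
    refine Measure.ext_of_singleton fun ⟨α, β⟩ => ?_
    rw [← Set.singleton_prod_singleton, Measure.prod_prod, Set.singleton_prod_singleton,
      Measure.map_apply (measurable_of_finite _) (measurableSet_singleton _),
      Measure.map_apply (measurable_of_finite _) (measurableSet_singleton _),
      Measure.map_apply (measurable_of_finite _) (measurableSet_singleton _)]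
    let p : Fin (N + 1) → Option A := fun i => if h : i ∈ U then some (α ⟨i, h⟩) else none
    let p' : Fin (N + 1) → Option A := fun i => if h : i ∈ V then some (β ⟨i, h⟩) else none
    have d0 : ∀ i, i ∈ U → i ∉ V := fun i h h' => by simpa using hUV i h i h'
    have d1 : ∀ i, i ∈ U → i + 1 ∉ V := fun i h h' => by
      have := hUV i h _ h'
      rw [SimpleGraph.dist_eq_one_iff_adj.mpr (hadj i)] at this
      omega
    have d2 : ∀ i, i ∈ V → i + 1 ∉ U := fun i h h' => by
      have := hUV _ h' i h
      rw [SimpleGraph.dist_eq_one_iff_adj.mpr (hadj i).symm] at this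
      omega
    have c1 : ∀ y : Fin (N + 1) → A, (∀ i c, p i = some c → y i = c) ↔ (fun a : U => y a) = α := by
      intro y
      constructor
      · intro h; funext a; exact h a _ (by simp [p])
      · rintro rfl i c hc
        by_cases hi : i ∈ U <;> simp_all [p]
    have c2 : ∀ y : Fin (N + 1) → A, (∀ i c, p' i = some c → y i = c) ↔ (fun a : V => y a) = β := by
      intro y
      constructor
      · intro h; funext a; exact h a _ (by simp [p'])
      · rintro rfl i c hc
        by_cases hi : i ∈ V <;> simp_all [p']
    have c3 : ∀ y : Fin (N + 1) → A, (∀ i c, (p i).or (p' i) = some c → y i = c) ↔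
        ((fun a : U => y a) = α ∧ (fun a : V => y a) = β) := by
      intro y
      rw [← c1, ← c2]
      constructor
      · intro h
        refine ⟨fun i c hc => h i c (by simp [hc]), fun i c hc => h i c ?_⟩
        have : i ∉ U := fun hi => by simp [p', d0 i hi] at hc
        simp [p, this, hc]
      · intro h i c hc
        rcases hp : p i with _ | a
        · exact h.2 i c (by simpa [hp] using hc)
        · exact h.1 i c (by simpa [hp] using hc)
    have main : ev (List.ofFn fun i => (p i).or (p' i)) m =
        ev (List.ofFn p) m * ev (List.ofFn p') m := by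
      by_cases hs : ∃ s, s ∉ U ∧ s ∉ V
      · obtain ⟨s, s1, s2⟩ := hs
        rw [hev p s (by simp [r2, p, s1]), hev p' s (by simp [r2, p', s2]),
          hev _ s (by simp [r2, p, p', s1, s2])]
        refine ev_line P P0 hP (p ∘ r) (p' ∘ r) (fun i => ?_) (fun i => ?_) (fun i => ?_) N (s + 1)
          [] [] (Or.inl rfl) (Or.inl rfl) (Or.inl rfl)
        · by_cases h : r i ∈ U <;> simp [p, p', h, d0]
        · by_cases h : r i ∈ U <;> simp [p, p', h, d1, r3]
        · by_cases h : r i ∈ V <;> simp [p, p', h, d2, r3]
      · push Not at hs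
        by_cases h0 : r 0 ∈ U
        · have all : ∀ i, r i ∈ U := fun i => Nat.rec h0
            (fun i hi => by by_contra h; exact d1 _ hi (r3 i ▸ hs _ h)) i
          have : p' = fun _ => none := funext fun i => by
            simp [p', d0 i (r2 i ▸ all i)]
          rw [this, htot]; simp
        · have all : ∀ i, r i ∈ V := fun i => Nat.rec (hs _ h0)
            (fun i hi => hs _ (r3 i ▸ d2 _ hi)) i
          have : p = fun _ => none := funext fun i => by
            have : i ∉ U := fun h => d0 i h (r2 i ▸ all i)
            simp [p, this]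
          rw [this, htot]; simp
    rw [ev_ofFn, ev_ofFn, ev_ofFn] at main
    simp only [c1, c2, c3] at main
    rw [hμ, hμ, hμ, ← ENNReal.ofReal_mul (Finset.sum_nonneg fun y _ => by split_ifs <;> simp [m0])]
    simp only [Set.mem_preimage, Set.mem_singleton_iff, Prod.mk.injEq]
    rw [main]

end Pool.Agent.H444Z.Cyc
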