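import Pool.Agent.H444Z.Cyc.Wild

set_option autoImplicit false
set_option maxHeartbeats 400000

namespace Pool.Agent.H444Z.Cyc

variable {A : Type} [DecidableEq A]

theorem sand_abs (f f' g g' : S A) (e : A) (w : List A)
    (hf : ∀ u : List A, u.length < w.length → |f u| ≤ f' u)
    (hg : ∀ u : List A, u.length < w.length → |g u| ≤ g' u) :
    |(f * (x e * g)) w| ≤ (f' * (x e * g')) w := by
  refine gc_abs _ _ _ fun u r h => ?_
  have hl : u.length + r.length = w.length := by rw [← h, List.length_append]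
  cases r with
  | nil => simp
  | cons c r =>
    simp only [List.length_cons] at hl
    simp only [x_mul_cons]
    split_ifs
    · rw [abs_mul]
      exact mul_le_mul (hf u (by omega)) (hg r (by omega)) (abs_nonneg _)
        ((abs_nonneg _).trans (hf u (by omega)))
    · simp

theorem sand_ne (f g : S A) (e : A) (w : List A) (h : (f * (x e * g)) w ≠ 0) :
    ∃ u r, w = u ++ e :: r ∧ f u ≠ 0 ∧ g r ≠ 0 := by
  by_contra hh
  refine h (gc_eq_zero _ _ fun u r e' => ?_)
  cases r with
  | nil => simp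
  | cons c r =>
    simp only [x_mul_cons]
    split_ifs with hc
    · by_contra h2
      exact hh ⟨u, r, by rw [← e', hc], left_ne_zero_of_mul h2, right_ne_zero_of_mul h2⟩
    · simp

theorem abs_mul_le (f f' g g' : S A) (hf : ∀ u, |f u| ≤ f' u) (hg : ∀ u, |g u| ≤ g' u)
    (w : List A) : |(f * g) w| ≤ (f' * g') w :=
  gc_abs _ _ _ fun u r _ => by
    rw [abs_mul]
    exact mul_le_mul (hf u) (hg r) (abs_nonneg _) ((abs_nonneg _).trans (hf u))

theorem abs_x (a : A) (w : List A) : |x a w| ≤ x a w := by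
  unfold x; split_ifs <;> simp

variable [Fintype A]

def pm (σ : Equiv.Perm A) (f : S A) : S A := fun w => f (w.map σ)

theorem Y_mul_cons (t : ℝ) (a b : A) (f : S A) (w : List A) :
    (Y t a * f) (b :: w) = (1 - if b = a then 1 + t else 0) * f w := by
  simp only [Y, sub_mul, smul_mul_assoc, sub_ap, smul_ap, X_mul_cons, x_mul_cons]
  split_ifs <;> simp

theorem d_pm (t : ℝ) (σ : Equiv.Perm A) (w : List A) : ∀ f : S A,
    d t (pm σ f) w = d t f (w.map σ) := by
  induction w with
  | nil => intro f; rfl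
  | cons a w ih =>
    intro f
    have e : dl a (pm σ f) = pm σ (dl (σ a) f) := rfl
    rw [List.map_cons, d_cons, d_cons, e, ih]
    congr 1
    cases w with
    | nil => simp [Y]
    | cons b w => simp [Y_mul_cons, pm]

namespace Sol

variable (s : Sol A)

theorem B_pm (σ : Equiv.Perm A) (w : List A) : s.B (w.map σ) = s.B w := by
  have : pm σ s.B = s.B := by
    refine (rzF s.t).uniq1 s.t0 s.t1 rfl (S.ext fun w => ?_) s.hB
    have := congrArg (fun g : S A => g (w.map σ)) s.hB
    simp only [opF_ap, sub_ap, smul_ap, add_ap, T_ap, List.length_map, d_pm] at this ⊢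
    rw [show pm σ s.B w = s.B (w.map σ) from rfl, this]
    cases w with
    | nil => simp
    | cons a w => simp [X_mul_cons, pm]
  exact congrFun this w

theorem G_nil (y a : A) : s.G y a [] = if y = a then 0 else 1 := by
  by_cases h : y = a <;> simp [G, h, s.f0, s.zi0]

theorem G_rec {y a : A} (h : y ≠ a) (w : List A) :
    (1 - s.t ^ w.length) * s.G y a w = s.t * ∑ c, (T s.t (s.G y c) * (x c * s.G c a)) w := by
  have := congrArg (fun g : S A => g w) (s.riccati h)
  simp only [sub_ap, T_ap, smul_ap, sum_ap] at this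
  linear_combination this

theorem G_nonneg (w : List A) : ∀ y a, 0 ≤ s.G y a w := by
  induction hn : w.length using Nat.strong_induction_on generalizing w with
  | _ n ih =>
    intro y a
    by_cases h : y = a
    · simp [h, G_self]
    cases w with
    | nil => simp [G_nil, h]
    | cons b w =>
      have p := pow_ne s.t0 s.t1 (b :: w).length (by simp)
      refine (mul_nonneg_iff_of_pos_left p).mp ?_
      rw [s.G_rec h]
      refine mul_nonneg s.t0.le (Finset.sum_nonneg fun c _ => (abs_nonneg _).trans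
        (sand_abs _ _ _ _ c _ (fun u hu => (abs_of_nonneg ?_).le)
          (fun u hu => (abs_of_nonneg ?_).le)))
      · exact mul_nonneg (pow_nonneg s.t0.le _) (ih _ (hn ▸ hu) u rfl _ _)
      · exact ih _ (hn ▸ hu) u rfl _ _

theorem G_chain (w : List A) : ∀ y a, s.G y a w ≠ 0 → List.IsChain (· ≠ ·) (y :: w ++ [a]) := by
  induction hn : w.length using Nat.strong_induction_on generalizing w with
  | _ n ih =>
    intro y a hG
    have h : y ≠ a := fun h => hG (by simp [h, G_self])
    cases w with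
    | nil => simp [h]
    | cons b w =>
      have p := pow_ne s.t0 s.t1 (b :: w).length (by simp)
      have := mul_ne_zero p.ne' hG
      rw [s.G_rec h] at this
      obtain ⟨c, -, hc⟩ := Finset.exists_ne_zero_of_sum_ne_zero (right_ne_zero_of_mul this)
      obtain ⟨u, r, e, h1, h2⟩ := sand_ne _ _ _ _ hc
      have hl := congrArg List.length e
      simp only [List.length_cons, List.length_append] at hl hn
      have c1 := ih _ (by omega) u rfl y c (right_ne_zero_of_mul h1)
      have c2 := ih _ (by omega) r rfl c a h2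
      rw [e]
      have : y :: (u ++ c :: r) ++ [a] = (y :: u) ++ c :: (r ++ [a]) := by simp
      rw [this, List.isChain_split]
      exact ⟨c1, c2⟩

theorem G_start (y a : A) (w : List A) : s.G y a (y :: w) = 0 := by
  by_contra h
  simpa using s.G_chain _ _ _ h

theorem G_mid (y a c : A) (v u : List A) : s.G y a (v ++ c :: c :: u) = 0 := by
  by_contra h
  have := s.G_chain _ _ _ h
  have e : y :: (v ++ c :: c :: u) ++ [a] = (y :: v) ++ c :: (c :: u ++ [a]) := by simp
  rw [e, List.isChain_split] at this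
  simpa using this.2

theorem G_end (y a : A) (v : List A) : s.G y a (v ++ [a]) = 0 := by
  by_contra h
  have := s.G_chain _ _ _ h
  have e : y :: (v ++ [a]) ++ [a] = (y :: v) ++ a :: [a] := by simp
  rw [e, List.isChain_split] at this
  simpa using this.2

theorem IsL.start {s : Sol A} {c : ℝ} {Γ : A → A → S A} (h : s.IsL c Γ) (a : A) (w : List A) :
    Γ a a (a :: w) = 0 := by
  rw [h a a]
  simp only [add_ap, smul_ap, sum_ap, s.G_start, zero_add]
  refine mul_eq_zero_of_right _ (Finset.sum_eq_zero fun e _ => ?_)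
  have : dl a (s.G a e) = 0 := S.ext fun w => s.G_start _ _ _
  rw [mul_cons, this, x_mul_cons, G_nil]
  by_cases h : a = e <;> simp [h]

theorem Tr_proper {s : Sol A} {c : ℝ} {Γ : A → A → S A} (hL : s.IsL c Γ) (hR : s.IsR c Γ)
    (a : A) (w : List A) : s.Tr c Γ (a :: a :: w) = 0 := by
  rw [Tr_cons hR, Tq, hL.start, mul_zero, zero_add]
  refine Finset.sum_eq_zero fun y _ => Finset.sum_eq_zero fun e _ => ?_
  rw [cyc_cons _ _ (show Mid c Γ _ _ [] = 0 by simp [Mid])]
  have e1 : cyc (fun v u => s.G e y (v ++ a :: a :: u)) (Mid c Γ y e) w = 0 :=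
    gc_eq_zero _ _ fun u r _ => by
      have : cL (fun v u => s.G e y (v ++ a :: a :: u)) u = 0 := S.ext fun v => s.G_mid _ _ _ _ _
      rw [this, mul_zero, zero_ap]
  rw [e1, zero_add]
  by_cases h : a = y
  · have : cL (fun v u => s.G e y (v ++ a :: u)) [] = 0 := S.ext fun v => h ▸ s.G_end _ _ _
    rw [this, mul_zero, zero_ap]
  · have : dl a (Mid c Γ y e) = 0 := S.ext fun r => by simp [Mid, x_mul_cons, h]
    rw [this, zero_mul, zero_ap]

theorem isL_m : s.IsL (-s.t) s.Γm := by
  obtain ⟨Γ, h⟩ := s.exists_L (-s.t)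
  have : Γ = s.Γm := funext fun y => funext fun a => h.isR.uniq s.isR_m y a
  exact this ▸ h

theorem Γ_abs (w : List A) : ∀ y a, |s.Γm y a w| ≤ s.Γp y a w := by
  induction hn : w.length using Nat.strong_induction_on generalizing w with
  | _ n ih =>
    intro y a
    rw [s.isL_m y a, s.isL_p y a]
    simp only [add_ap, smul_ap, sum_ap, one_mul]
    refine (abs_add_le _ _).trans (add_le_add (abs_of_nonneg (s.G_nonneg _ _ _)).le ?_)
    rw [abs_mul, abs_neg, abs_of_pos s.t0]
    refine (mul_le_of_le_one_left (abs_nonneg _) s.t1.le).trans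
      ((Finset.abs_sum_le_sum_abs _ _).trans (Finset.sum_le_sum fun e _ => ?_))
    exact sand_abs _ _ _ _ e _ (fun u _ => (abs_of_nonneg (s.G_nonneg _ _ _)).le)
      (fun u hu => ih _ (hn ▸ hu) u rfl _ _)

theorem Tr_abs (w : List A) : |s.Tr (-s.t) s.Γm w| ≤ s.Tr 1 s.Γp w := by
  refine (Finset.abs_sum_le_sum_abs _ _).trans (Finset.sum_le_sum fun y _ =>
    (Finset.abs_sum_le_sum_abs _ _).trans (Finset.sum_le_sum fun e _ => ?_))
  refine gc_abs _ _ _ fun u r _ => abs_mul_le _ _ _ _ (fun m => ?_)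
    (fun v => (abs_of_nonneg (s.G_nonneg _ _ _)).le) r
  simp only [Mid, smul_ap, one_pow, one_mul, abs_mul]
  have : |(-s.t) ^ 2| ≤ 1 := by
    rw [abs_of_nonneg (sq_nonneg _)]
    nlinarith [s.t0, s.t1]
  exact (mul_le_of_le_one_left (abs_nonneg _) this).trans
    (abs_mul_le _ _ _ _ (abs_x y) (abs_mul_le _ _ _ _ (fun u => s.Γ_abs u _ _) (abs_x e)) m)

noncomputable def M (w : List A) : ℝ := s.Tr 1 s.Γp w - s.Tr (-s.t) s.Γm w

theorem M_marg (hq : (Fintype.card A : ℝ) * s.t = (1 + s.t) ^ 2) (w : List A) :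
    ∑ a, s.M (w ++ [a]) = (1 + s.t) * (1 - s.t ^ w.length) * (1 - s.t ^ (w.length + 2)) /
      s.t ^ (w.length + 1) * s.B w := by
  have h := congrArg (fun g : S A => g w) s.main_sum
  simp only [M, Tr_snoc s.isL_p, Tr_snoc s.isL_m, Finset.sum_sub_distrib,
    Tq_sum hq s.isL_p s.isL_p.isR, Tq_sum hq s.isL_m s.isR_m]
  simp only [add_mul, mul_add, smul_mul_assoc, mul_smul_comm, Finset.sum_add_distrib,
    ← Finset.smul_sum, add_ap, smul_ap, sub_ap, T_ap, inv_pow] at h
  have t0 := s.t0.ne'
  have hq' : (Fintype.card A : ℝ) = (1 + s.t) ^ 2 / s.t := by field_simp; linarith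
  rw [one_mul, neg_mul, sub_neg_eq_add, h, hq']
  field_simp
  ring

end Sol

theorem weights {t : ℝ} (t0 : 0 < t) (t1 : t < 1) (hq : (Fintype.card A : ℝ) * t = (1 + t) ^ 2)
    (N : ℕ) (hN : 1 ≤ N) :
    ∃ m P : List A → ℝ, (∀ w, 0 ≤ m w) ∧ (∀ w a, m (w ++ [a]) = m (a :: w)) ∧
      (∀ a w, m (a :: a :: w) = 0) ∧ (∀ (σ : Equiv.Perm A) w, m (w.map σ) = m w) ∧
      (∀ w, w.length = N → ∑ a, m (w ++ [a]) = P w) ∧ P [] = 1 ∧
      ∀ u v, ∑ a, P (u ++ a :: v) = P u * P v := by
  obtain ⟨s, rfl⟩ := exists_sol (A := A) t t0 t1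
  let γ : ℕ → ℝ := fun n => (1 - s.t) ^ (n + 1) / ((1 + s.t) ^ n * (1 - s.t ^ (n + 1)))
  let κ : ℝ := (1 + s.t) * (1 - s.t ^ N) * (1 - s.t ^ (N + 2)) / s.t ^ (N + 1)
  have p := fun n => pow_ne t0 t1 (n + 1) (by omega)
  have p1 : 0 < 1 - s.t := by linarith
  have hκ : 0 < κ := by
    have := pow_ne t0 t1 N hN
    have := p (N + 1)
    positivity
  have hγ : 0 < γ N := by
    have := p N
    positivity
  have hc : (0 : ℝ) < Fintype.card (Equiv.Perm A) := by exact_mod_cast Fintype.card_pos
  refine ⟨fun w => γ N / (κ * Fintype.card (Equiv.Perm A)) * ∑ σ : Equiv.Perm A, s.M (w.map σ),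
    fun w => γ w.length * s.B w, fun w => ?_, fun w a => ?_, fun a w => ?_, fun σ w => ?_,
    fun w hw => ?_, ?_, fun u v => ?_⟩
  · refine mul_nonneg (by positivity) (Finset.sum_nonneg fun σ _ => sub_nonneg.mpr ?_)
    exact (le_abs_self _).trans (s.Tr_abs _)
  · simp only [Sol.M, List.map_append, List.map_cons, List.map_nil, Sol.Tr_snoc s.isL_p,
      Sol.Tr_snoc s.isL_m, Sol.Tr_cons s.isL_p.isR, Sol.Tr_cons s.isR_m]
  · simp [Sol.M, Sol.Tr_proper s.isL_p s.isL_p.isR, Sol.Tr_proper s.isL_m s.isR_m]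
  · simp only [List.map_map]
    congr 1
    exact Fintype.sum_equiv (Equiv.mulRight σ) _ _ fun τ => rfl
  · have e : ∀ σ : Equiv.Perm A, ∑ a, s.M ((w ++ [a]).map σ) = κ * s.B w := fun σ => by
      have := s.M_marg hq (w.map σ)
      rw [List.length_map, hw, s.B_pm] at this
      rw [← this]
      exact Fintype.sum_equiv σ _ _ fun a => by simp
    simp only
    rw [← Finset.mul_sum, Finset.sum_comm]
    simp only [e, Finset.sum_const, Finset.card_univ, nsmul_eq_mul, hw]
    field_simp
  · simp only [γ, s.B0, List.length_nil]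
    have := p1.ne'
    simp [this]
  · have := s.D_B hq u v
    simp only [D] at this
    simp only [List.length_append, List.length_cons, ← Finset.mul_sum, this, γ, Sol.cB]
    have h1 := (p u.length).ne'
    have h2 := (p v.length).ne'
    have h3 := (p (u.length + v.length + 1)).ne'
    have h4 : 1 + s.t ≠ 0 := by positivity
    rw [show u.length + (v.length + 1) + 1 = u.length + v.length + 1 + 1 by ring,
      show u.length + v.length + 2 = u.length + v.length + 1 + 1 by ring]
    field_simp
    ring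

end Pool.Agent.H444Z.Cyc
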