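import Mathlib

set_option autoImplicit false
set_option maxHeartbeats 400000

namespace Pool.Agent.H444Z.Cyc

variable {A : Type}

/-- sum over all splittings of a word -/
def gc : List A → (List A → List A → ℝ) → ℝ
  | [], K => K [] []
  | a :: w, K => K [] (a :: w) + gc w (fun u r => K (a :: u) r)

theorem gc_congr (w : List A) : ∀ K K' : List A → List A → ℝ,
    (∀ u r, u ++ r = w → K u r = K' u r) → gc w K = gc w K' := by
  induction w with
  | nil => intro K K' h; exact h [] [] rfl
  | cons a w ih =>
    intro K K' h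
    simp only [gc]
    rw [h [] (a :: w) rfl, ih _ (fun u r => K' (a :: u) r) (fun u r e => h _ _ (by simp [e]))]

theorem gc_add (w : List A) : ∀ K K' : List A → List A → ℝ,
    gc w (fun u r => K u r + K' u r) = gc w K + gc w K' := by
  induction w with
  | nil => intro K K'; rfl
  | cons a w ih => intro K K'; simp only [gc]; rw [ih]; ring

theorem gc_mul (c : ℝ) (w : List A) : ∀ K : List A → List A → ℝ,
    gc w (fun u r => c * K u r) = c * gc w K := by
  induction w with
  | nil => intro K; rfl
  | cons a w ih => intro K; simp only [gc]; rw [ih]; ring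

theorem gc_zero (w : List A) : gc w (fun _ _ => 0) = 0 := by
  induction w with
  | nil => rfl
  | cons a w ih => simp only [gc]; rw [ih]; ring

theorem gc_sum {β : Type} (s : Finset β) (w : List A) : ∀ K : β → List A → List A → ℝ,
    gc w (fun u r => ∑ b ∈ s, K b u r) = ∑ b ∈ s, gc w (K b) := by
  induction w with
  | nil => intro K; rfl
  | cons a w ih => intro K; simp only [gc]; rw [ih, Finset.sum_add_distrib]

theorem gc_assoc (w : List A) : ∀ K : List A → List A → List A → ℝ,
    gc w (fun u r => gc u (fun u1 u2 => K u1 u2 r)) =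
      gc w (fun u1 r' => gc r' (fun u2 r => K u1 u2 r)) := by
  induction w with
  | nil => intro K; rfl
  | cons a w ih =>
    intro K
    simp only [gc]
    rw [gc_add, ih (fun u1 u2 r => K (a :: u1) u2 r)]
    ring

theorem gc_snoc (b : A) (w : List A) : ∀ K : List A → List A → ℝ,
    gc (w ++ [b]) K = gc w (fun u r => K u (r ++ [b])) + K (w ++ [b]) [] := by
  induction w with
  | nil => intro K; simp [gc]
  | cons a w ih => intro K; simp only [gc, List.cons_append]; rw [ih]; ring

theorem gc_nonneg (w : List A) : ∀ K : List A → List A → ℝ,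
    (∀ u r, u ++ r = w → 0 ≤ K u r) → 0 ≤ gc w K := by
  induction w with
  | nil => intro K h; exact h [] [] rfl
  | cons a w ih =>
    intro K h
    exact add_nonneg (h _ _ rfl) (ih _ fun u r e => h _ _ (by simp [e]))

theorem gc_abs (w : List A) : ∀ K K' : List A → List A → ℝ,
    (∀ u r, u ++ r = w → |K u r| ≤ K' u r) → |gc w K| ≤ gc w K' := by
  induction w with
  | nil => intro K K' h; exact h [] [] rfl
  | cons a w ih =>
    intro K K' h
    exact (abs_add_le _ _).trans
      (add_le_add (h _ _ rfl) (ih _ _ fun u r e => h _ _ (by simp [e])))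

theorem gc_eq_zero (w : List A) (K : List A → List A → ℝ)
    (h : ∀ u r, u ++ r = w → K u r = 0) : gc w K = 0 := by
  rw [gc_congr w K (fun _ _ => 0) h, gc_zero]

/-- formal series in noncommuting letters -/
def S (A : Type) := List A → ℝ

instance : AddCommGroup (S A) := inferInstanceAs (AddCommGroup (List A → ℝ))
noncomputable instance : Module ℝ (S A) := inferInstanceAs (Module ℝ (List A → ℝ))

@[ext] theorem S.ext {f g : S A} (h : ∀ w, f w = g w) : f = g := funext h

@[simp] theorem add_ap (f g : S A) (w : List A) : (f + g) w = f w + g w := rfl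
@[simp] theorem sub_ap (f g : S A) (w : List A) : (f - g) w = f w - g w := rfl
@[simp] theorem neg_ap (f : S A) (w : List A) : (-f) w = - f w := rfl
@[simp] theorem zero_ap (w : List A) : (0 : S A) w = 0 := rfl
@[simp] theorem smul_ap (c : ℝ) (f : S A) (w : List A) : (c • f) w = c * f w := rfl
theorem sum_ap {β : Type} (s : Finset β) (f : β → S A) (w : List A) :
    (∑ b ∈ s, f b) w = ∑ b ∈ s, f b w := Finset.sum_apply w s f

def one' : S A
  | [] => 1
  | _ :: _ => 0

def dl (a : A) (f : S A) : S A := fun w => f (a :: w)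

instance : Mul (S A) := ⟨fun f g w => gc w (fun u r => f u * g r)⟩
instance : One (S A) := ⟨one'⟩

theorem mul_ap (f g : S A) (w : List A) : (f * g) w = gc w (fun u r => f u * g r) := rfl
@[simp] theorem one_nil : (1 : S A) [] = 1 := rfl
@[simp] theorem one_cons (a : A) (w : List A) : (1 : S A) (a :: w) = 0 := rfl
theorem one_snoc (a : A) (w : List A) : (1 : S A) (w ++ [a]) = 0 := by cases w <;> rfl
@[simp] theorem mul_nil (f g : S A) : (f * g) [] = f [] * g [] := rfl
theorem mul_cons (f g : S A) (a : A) (w : List A) :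
    (f * g) (a :: w) = f [] * g (a :: w) + (dl a f * g) w := rfl
@[simp] theorem dl_ap (a : A) (f : S A) (w : List A) : dl a f w = f (a :: w) := rfl

instance : Ring (S A) :=
  { (inferInstance : AddCommGroup (S A)) with
    mul := (· * ·)
    one := 1
    left_distrib := fun f g h => S.ext fun w => by
      show gc w _ = gc w _ + gc w _
      rw [← gc_add]; exact gc_congr _ _ _ fun u r _ => by simp [mul_add]
    right_distrib := fun f g h => S.ext fun w => by
      show gc w _ = gc w _ + gc w _
      rw [← gc_add]; exact gc_congr _ _ _ fun u r _ => by simp [add_mul]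
    zero_mul := fun f => S.ext fun w => gc_eq_zero _ _ fun u r _ => by simp
    mul_zero := fun f => S.ext fun w => gc_eq_zero _ _ fun u r _ => by simp
    mul_assoc := fun f g h => S.ext fun w => by
      show gc w (fun u r => gc u _ * h r) = gc w (fun u r => f u * gc r _)
      have := gc_assoc w (fun u1 u2 r => f u1 * g u2 * h r)
      refine (gc_congr _ _ _ fun u r _ => ?_).trans (this.trans (gc_congr _ _ _ fun u r _ => ?_))
      · rw [mul_comm, ← gc_mul]; exact gc_congr _ _ _ fun _ _ _ => by ring
      · rw [← gc_mul]; exact gc_congr _ _ _ fun _ _ _ => by ring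
    one_mul := fun f => S.ext fun w => by
      cases w with
      | nil => show (1 : ℝ) * f [] = f []; ring
      | cons a w =>
        show 1 * f (a :: w) + gc w _ = _
        rw [gc_eq_zero _ _ fun u r _ => by simp]; ring
    mul_one := fun f => S.ext fun w => by
      show gc w _ = _
      induction w using List.reverseRecOn with
      | nil => show f [] * 1 = f []; ring
      | append_singleton w a _ =>
        rw [gc_snoc, gc_eq_zero _ _ fun u r _ => by simp [one_snoc]]; simp }

noncomputable instance : Algebra ℝ (S A) := Algebra.ofModule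
  (fun c f g => S.ext fun w => by
    show gc w _ = c * gc w _
    rw [← gc_mul]; exact gc_congr _ _ _ fun u r _ => by simp [mul_assoc])
  (fun c f g => S.ext fun w => by
    show gc w _ = c * gc w _
    rw [← gc_mul]; exact gc_congr _ _ _ fun u r _ => by simp; ring)

def dr (b : A) (g : S A) : S A := fun r => g (r ++ [b])

@[simp] theorem dr_ap (b : A) (f : S A) (w : List A) : dr b f w = f (w ++ [b]) := rfl

theorem mul_snoc (f g : S A) (b : A) (w : List A) :
    (f * g) (w ++ [b]) = (f * dr b g) w + f (w ++ [b]) * g [] :=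
  gc_snoc b w _

/-- rescaling by a function of the length -/
def sc (l : ℕ → ℝ) (f : S A) : S A := fun w => l w.length * f w

@[simp] theorem sc_ap (l : ℕ → ℝ) (f : S A) (w : List A) : sc l f w = l w.length * f w := rfl

noncomputable def T (t : ℝ) : S A →ₐ[ℝ] S A where
  toFun := sc (fun n => t ^ n)
  map_one' := S.ext fun w => by cases w <;> simp
  map_mul' := fun f g => S.ext fun w => by
    simp only [sc_ap, mul_ap]
    rw [← gc_mul]
    refine gc_congr _ _ _ fun u r e => ?_
    rw [← e, List.length_append, pow_add]; ring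
  map_zero' := S.ext fun w => by simp
  map_add' := fun f g => S.ext fun w => by simp [mul_add]
  commutes' := fun c => S.ext fun w => by
    rw [Algebra.algebraMap_eq_smul_one]
    cases w <;> simp

@[simp] theorem T_ap (t : ℝ) (f : S A) (w : List A) : T t f w = t ^ w.length * f w := rfl

def Van (n : ℕ) (f : S A) : Prop := ∀ w : List A, w.length < n → f w = 0

theorem eq_zero_of_van {f : S A} (h : ∀ n, Van n f → Van (n + 1) f) : f = 0 := by
  have : ∀ n, Van n f := fun n => Nat.rec (fun w hw => absurd hw (Nat.not_lt_zero _)) h n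
  exact S.ext fun w => this _ w (Nat.lt_succ_self _)

theorem Van.mul {m n : ℕ} {f g : S A} (hf : Van m f) (hg : Van n g) : Van (m + n) (f * g) := by
  intro w hw
  refine gc_eq_zero _ _ fun u r e => ?_
  have : u.length + r.length = w.length := by rw [← e, List.length_append]
  by_cases h : u.length < m
  · rw [hf u h, zero_mul]
  · rw [hg r (by omega), mul_zero]

theorem van_zero (f : S A) : Van 0 f := fun _ h => absurd h (by omega)

theorem Van.lmul {n : ℕ} {g : S A} (hg : Van n g) (f : S A) : Van n (f * g) := by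
  simpa using (van_zero f).mul hg

theorem Van.rmul {n : ℕ} {g : S A} (hg : Van n g) (f : S A) : Van n (g * f) := by
  simpa using hg.mul (van_zero f)

theorem Van.sum {β : Type} {n : ℕ} (s : Finset β) {f : β → S A} (h : ∀ b, Van n (f b)) :
    Van n (∑ b ∈ s, f b) := fun w hw => by
  rw [sum_ap]; exact Finset.sum_eq_zero fun b _ => h b w hw

theorem Van.smul {n : ℕ} {g : S A} (hg : Van n g) (c : ℝ) : Van n (c • g) := fun w hw => by
  simp [hg w hw]

/-- fixed points of maps that gain one letter of agreement -/
theorem exists_fix {I : Type} (Φ : (I → S A) → (I → S A))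
    (h : ∀ n f g, (∀ i, Van n (f i - g i)) → ∀ i, Van (n + 1) (Φ f i - Φ g i)) :
    ∃ f, Φ f = f := by
  let F : ℕ → I → S A := fun n => Φ^[n] 0
  have h1 : ∀ n k i, Van n (F n i - F (n + k) i) := by
    intro n
    induction n with
    | zero => intro k i; exact van_zero _
    | succ n ih =>
      intro k i
      have := h n _ _ (ih k) i
      simp only [F] at this ⊢
      rw [show n + 1 + k = (n + k) + 1 by ring, Function.iterate_succ_apply',
        Function.iterate_succ_apply']
      exact this
  let f : I → S A := fun i w => F (w.length + 1) i w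
  have h2 : ∀ n i, Van n (f i - F n i) := by
    intro n i w hw
    obtain ⟨k, rfl⟩ : ∃ k, n = w.length + 1 + k := ⟨n - (w.length + 1), by omega⟩
    exact h1 _ k i w (Nat.lt_succ_self _)
  refine ⟨f, funext fun i => S.ext fun w => ?_⟩
  have := h _ _ _ (h2 w.length) i w (Nat.lt_succ_self _)
  simp only [sub_ap] at this
  show _ = Φ^[w.length + 1] 0 i w
  rw [Function.iterate_succ_apply']
  exact sub_eq_zero.mp this

theorem van_one {f : S A} (h : f [] = 0) : Van 1 f := fun w hw => by
  cases w with
  | nil => exact h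
  | cons a w => simp at hw

theorem isUnit_of_nil {f : S A} (h : f [] = 1) : IsUnit f := by
  have hv : Van 1 (1 - f) := van_one (by simp [h])
  obtain ⟨g, hg⟩ := exists_fix (I := Unit) (fun g _ => 1 + (1 - f) * g ()) (by
    intro n g g' hh _
    have := hv.mul (hh ())
    rw [add_comm] at this
    convert this using 1
    noncomm_ring)
  obtain ⟨g', hg'⟩ := exists_fix (I := Unit) (fun g _ => 1 + g () * (1 - f)) (by
    intro n g g' hh _
    have := (hh ()).mul hv
    convert this using 1
    noncomm_ring)
  have e1 : f * g () = 1 := by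
    have : 1 + (1 - f) * g () = g () := congrFun hg ()
    calc f * g () = g () - (1 - f) * g () := by noncomm_ring
      _ = 1 := by nth_rewrite 1 [← this]; noncomm_ring
  have e2 : g' () * f = 1 := by
    have : 1 + g' () * (1 - f) = g' () := congrFun hg' ()
    calc g' () * f = g' () - g' () * (1 - f) := by noncomm_ring
      _ = 1 := by nth_rewrite 1 [← this]; noncomm_ring
  have e3 : g' () = g () := by
    calc g' () = g' () * (f * g ()) := by rw [e1, mul_one]
      _ = g () := by rw [← mul_assoc, e2, one_mul]
  exact ⟨⟨f, g (), e1, e3 ▸ e2⟩, rfl⟩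

/-- linear maps that add exactly one letter -/
structure Rz (L : S A →ₗ[ℝ] S A) : Prop where
  h0 : ∀ f, L f [] = 0
  h1 : ∀ l f a w, L (sc l f) (a :: w) = l w.length * L f (a :: w)

theorem Rz.van {L : S A →ₗ[ℝ] S A} (h : Rz L) {n : ℕ} {f : S A} (hf : Van n f) :
    Van (n + 1) (L f) := by
  intro w hw
  cases w with
  | nil => exact h.h0 f
  | cons a w =>
    have e : f = sc (fun m => if m < n then 0 else 1) f := S.ext fun u => by
      by_cases hu : u.length < n
      · simp [hu, hf u hu]
      · simp [hu]
    rw [e, h.h1, if_pos (by simpa using hw), zero_mul]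

theorem Rz.add {L L' : S A →ₗ[ℝ] S A} (h : Rz L) (h' : Rz L') : Rz (L + L') :=
  ⟨fun f => by simp [h.h0, h'.h0], fun l f a w => by simp [h.h1, h'.h1, mul_add]⟩

theorem Rz.sub {L L' : S A →ₗ[ℝ] S A} (h : Rz L) (h' : Rz L') : Rz (L - L') :=
  ⟨fun f => by simp [h.h0, h'.h0], fun l f a w => by simp [h.h1, h'.h1, mul_sub]⟩

theorem Rz.smul {L : S A →ₗ[ℝ] S A} (h : Rz L) (c : ℝ) : Rz (c • L) :=
  ⟨fun f => by simp [h.h0], fun l f a w => by simp [h.h1]; ring⟩

theorem T_sc (t : ℝ) (l : ℕ → ℝ) (f : S A) : T t (sc l f) = sc l (T t f) :=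
  S.ext fun w => by simp; ring

theorem Rz.compT {L : S A →ₗ[ℝ] S A} (h : Rz L) (t : ℝ) : Rz (L ∘ₗ (T t).toLinearMap) :=
  ⟨fun f => h.h0 _, fun l f a w => by
    simp only [LinearMap.comp_apply, AlgHom.toLinearMap_apply, T_sc, h.h1]⟩

theorem Rz.uniq {L : S A →ₗ[ℝ] S A} (h : Rz L) (c : ℕ → ℝ) (m : ℕ) (hc : ∀ n, m ≤ n → c n ≠ 0)
    {f : S A} (h0 : Van m f) (he : sc c f = L f) : f = 0 := by
  refine eq_zero_of_van fun n hn w hw => ?_
  by_cases h1 : w.length < m
  · exact h0 w h1
  · have := h.van hn w hw
    rw [← he, sc_ap] at this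
    exact (mul_eq_zero.mp this).resolve_left (hc _ (by omega))

theorem pow_ne {t : ℝ} (h0 : 0 < t) (h1 : t < 1) (n : ℕ) (hn : 1 ≤ n) : 0 < 1 - t ^ n :=
  sub_pos.mpr (pow_lt_one₀ h0.le h1 (by omega))

theorem Rz.uniq1 {L : S A →ₗ[ℝ] S A} (h : Rz L) {t : ℝ} (h0 : 0 < t) (h1 : t < 1) {f g : S A}
    (e0 : f [] = g []) (ef : f - T t f = L f) (eg : g - T t g = L g) : f = g := by
  refine sub_eq_zero.mp (h.uniq (fun n => 1 - t ^ n) 1 (fun n hn => (pow_ne h0 h1 n hn).ne')
    (van_one (by simp [e0])) ?_)
  rw [map_sub, ← ef, ← eg]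
  exact S.ext fun w => by simp; ring

theorem Rz.uniq2 {L : S A →ₗ[ℝ] S A} (h : Rz L) {t : ℝ} (h0 : 0 < t) (h1 : t < 1) {f g : S A}
    (e0 : f [] = g []) (e1 : ∀ a, f [a] = g [a]) (ef : t • f - T t f = t • L f)
    (eg : t • g - T t g = t • L g) : f = g := by
  refine sub_eq_zero.mp ((h.smul t).uniq (fun n => t - t ^ n) 2 (fun n hn => ?_) ?_ ?_)
  · obtain ⟨k, rfl⟩ : ∃ k, n = k + 1 := ⟨n - 1, by omega⟩
    have := pow_ne h0 h1 k (by omega)
    have e : t - t ^ (k + 1) = t * (1 - t ^ k) := by ring
    rw [e]; positivity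
  · intro w hw
    match w, hw with
    | [], _ => simp [e0]
    | [a], _ => simp [e1]
  · rw [LinearMap.smul_apply, map_sub, smul_sub, ← ef, ← eg]
    exact S.ext fun w => by simp; ring

theorem Rz.ex {L : S A →ₗ[ℝ] S A} (h : Rz L) {t : ℝ} (h0 : 0 < t) (h1 : t < 1) :
    ∃ f : S A, f [] = 1 ∧ f - T t f = L f := by
  obtain ⟨f, hf⟩ := exists_fix (I := Unit)
    (fun g _ => 1 + sc (fun n => (1 - t ^ n)⁻¹) (L (g ()))) (by
      intro n g g' hh _ w hw
      have := h.van (hh ()) w hw
      rw [map_sub, sub_ap] at this
      simp only [sub_ap, add_ap, sc_ap]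
      rw [sub_eq_zero.mp this]; ring)
  have e : 1 + sc (fun n => (1 - t ^ n)⁻¹) (L (f ())) = f () := congrFun hf ()
  refine ⟨f (), ?_, S.ext fun w => ?_⟩
  · rw [← e]; simp
  · cases w with
    | nil => simp [h.h0]
    | cons a w =>
      have e2 : (1 + sc (fun n => (1 - t ^ n)⁻¹) (L (f ()))) (a :: w) = f () (a :: w) := by rw [e]
      have := (pow_ne h0 h1 (w.length + 1) (by omega)).ne'
      simp only [add_ap, one_cons, sc_ap, List.length_cons, zero_add] at e2
      simp only [sub_ap, T_ap, List.length_cons]
      rw [← e2]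
      field_simp

theorem Rz.T_comm {L : S A →ₗ[ℝ] S A} (h : Rz L) (t : ℝ) (f : S A) :
    T t (L f) = t • L (T t f) := S.ext fun w => by
  cases w with
  | nil => simp [h.h0]
  | cons a w =>
    have := h.h1 (fun n => t ^ n) f a w
    simp only [T_ap, smul_ap, List.length_cons]
    rw [show T t f = sc (fun n => t ^ n) f from rfl, this]; ring

section letters
variable [DecidableEq A]

def x (a : A) : S A := fun w => if w = [a] then 1 else 0

@[simp] theorem x_nil (a : A) : x a [] = 0 := by simp [x]

theorem dl_x (a b : A) : dl b (x a) = if b = a then 1 else 0 := S.ext fun w => by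
  by_cases h : b = a
  · cases w <;> simp [x, h]
  · simp [x, h]

theorem x_mul_cons (a b : A) (f : S A) (w : List A) :
    (x a * f) (b :: w) = if b = a then f w else 0 := by
  rw [mul_cons, dl_x]
  by_cases h : b = a <;> simp [h]

theorem mul_x_snoc (a b : A) (f : S A) (w : List A) :
    (f * x a) (w ++ [b]) = if b = a then f w else 0 := by
  rw [mul_snoc]
  have : dr b (x a) = if b = a then 1 else 0 := S.ext fun w => by
    by_cases h : b = a
    · rcases w with _ | ⟨c, w⟩
      · simp [x, h]
      · simp only [h, if_true, dr_ap, one_cons, x]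
        rw [if_neg]
        intro e
        simpa using congrArg List.length e
    · rcases w with _ | ⟨c, w⟩
      · simp [x, h]
      · simp only [h, if_false, dr_ap, zero_ap, x]
        rw [if_neg]
        intro e
        simpa using congrArg List.length e
  rw [this]
  by_cases h : b = a <;> simp [h]

theorem T_x (t : ℝ) (a : A) : T t (x a) = t • x a := S.ext fun w => by
  by_cases h : w = [a] <;> simp [x, h]

theorem van_x (a : A) : Van 1 (x a) := van_one (x_nil a)

theorem rz_left (a : A) : Rz (LinearMap.mulLeft ℝ (x a)) :=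
  ⟨fun f => by simp, fun l f b w => by
    simp only [LinearMap.mulLeft_apply, x_mul_cons]; split_ifs <;> simp⟩

theorem rz_right (a : A) : Rz (LinearMap.mulRight ℝ (x a)) :=
  ⟨fun f => by simp, fun l f b w => by
    obtain ⟨u, c, e⟩ : ∃ u c, b :: w = u ++ [c] :=
      ⟨_, _, (List.dropLast_append_getLast (List.cons_ne_nil b w)).symm⟩
    have : w.length = u.length := by simpa using congrArg List.length e
    simp only [LinearMap.mulRight_apply, e, mul_x_snoc, this]; split_ifs <;> simp⟩

variable [Fintype A]

noncomputable def X : S A := ∑ a, x a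

@[simp] theorem X_nil : (X : S A) [] = 0 := by simp [X, sum_ap]

theorem X_mul_cons (b : A) (f : S A) (w : List A) : ((X : S A) * f) (b :: w) = f w := by
  simp [X, Finset.sum_mul, sum_ap, x_mul_cons]

theorem T_X (t : ℝ) : T t (X : S A) = t • X := by
  simp [X, map_sum, T_x, Finset.smul_sum]

theorem Rz.sum {β : Type} (s : Finset β) {L : β → S A →ₗ[ℝ] S A} (h : ∀ b, Rz (L b)) :
    Rz (∑ b ∈ s, L b) :=
  ⟨fun f => by simp [LinearMap.sum_apply, sum_ap, (h _).h0], fun l f a w => by
    simp [LinearMap.sum_apply, sum_ap, (h _).h1, Finset.mul_sum]⟩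

theorem rz_leftX : Rz (LinearMap.mulLeft ℝ (X : S A)) := by
  convert Rz.sum Finset.univ (fun a : A => rz_left a) using 1
  ext1 f; simp [X, Finset.sum_mul, LinearMap.sum_apply]

theorem rz_rightX : Rz (LinearMap.mulRight ℝ (X : S A)) := by
  convert Rz.sum Finset.univ (fun a : A => rz_right a) using 1
  ext1 f; simp [X, Finset.mul_sum, LinearMap.sum_apply]

noncomputable def Y (t : ℝ) (a : A) : S A := X - (1 + t) • x a

noncomputable def del (t : ℝ) : List A → S A → ℝ
  | [], _ => 0
  | a :: w, f => del t w (dl a f) + (Y t a * T t (dl a f)) w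

theorem dl_add (a : A) (f g : S A) : dl a (f + g) = dl a f + dl a g := rfl
theorem dl_smul (a : A) (c : ℝ) (f : S A) : dl a (c • f) = c • dl a f := rfl

/-- the twisted derivation -/
noncomputable def d (t : ℝ) : S A →ₗ[ℝ] S A where
  toFun f := fun w => del t w f
  map_add' f g := S.ext fun w => by
    induction w generalizing f g with
    | nil => simp [del]
    | cons a w ih =>
      have := ih (dl a f) (dl a g)
      simp only [add_ap, del, dl_add, map_add, mul_add] at this ⊢
      rw [this]; ring
  map_smul' c f := S.ext fun w => by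
    induction w generalizing f with
    | nil => simp [del]
    | cons a w ih =>
      have := ih (dl a f)
      simp only [smul_ap, del, dl_smul, map_smul, mul_smul_comm, RingHom.id_apply] at this ⊢
      rw [this]; ring

@[simp] theorem d_nil (t : ℝ) (f : S A) : d t f [] = 0 := rfl
theorem d_cons (t : ℝ) (f : S A) (a : A) (w : List A) :
    d t f (a :: w) = d t (dl a f) w + (Y t a * T t (dl a f)) w := rfl

theorem dl_mul (a : A) (f g : S A) : dl a (f * g) = f [] • dl a g + dl a f * g := rfl

theorem dl_d (t : ℝ) (a : A) (f : S A) : dl a (d t f) = d t (dl a f) + Y t a * T t (dl a f) := rfl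

theorem d_mul (t : ℝ) (f g : S A) : d t (f * g) = d t f * T t g + f * d t g := S.ext fun w => by
  induction w generalizing f with
  | nil => simp
  | cons a w ih =>
    rw [d_cons, dl_mul, map_add, map_smul, add_ap, ih, add_ap (d t f * T t g), mul_cons (d t f),
      mul_cons f, dl_d, d_cons]
    simp only [map_add, map_smul, map_mul, mul_add, add_mul, mul_smul_comm, add_ap, smul_ap,
      d_nil, mul_assoc]
    ring

theorem d_one (t : ℝ) : d t (1 : S A) = 0 := by
  have := d_mul t (1 : S A) 1
  simpa using this

theorem d_x (t : ℝ) (a : A) : d t (x a) = x a * Y t a := S.ext fun w => by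
  cases w with
  | nil => simp
  | cons b w =>
    rw [d_cons, x_mul_cons, dl_x]
    by_cases h : b = a <;> simp [h, d_one]

theorem rz_Y (t : ℝ) (a : A) : Rz (LinearMap.mulLeft ℝ (Y t a)) := by
  convert rz_leftX.sub ((rz_left a).smul (1 + t)) using 1
  ext1 f; simp [Y, sub_mul]

theorem rz_d (t : ℝ) : Rz (d t : S A →ₗ[ℝ] S A) := by
  refine ⟨fun f => rfl, fun l f a w => ?_⟩
  induction w generalizing l f a with
  | nil =>
    have := (rz_Y t a).h0
    simp only [LinearMap.mulLeft_apply] at this
    simp [d_cons, this]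
  | cons b w ih =>
    have e : dl a (sc l f) = sc (fun n => l (n + 1)) (dl a f) := rfl
    have h2 := ((rz_Y t a).compT t).h1 (fun n => l (n + 1)) (dl a f) b w
    simp only [LinearMap.comp_apply, LinearMap.mulLeft_apply, AlgHom.toLinearMap_apply] at h2
    rw [d_cons, d_cons t f, e, ih, h2, List.length_cons]; ring

end letters

end Pool.Agent.H444Z.Cyc
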