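import Pool.Agent.H444Z.BF.Prod

set_option autoImplicit false
set_option maxHeartbeats 400000

namespace Pool.Agent.H444Z.Cyc

open MeasureTheory ProbabilityTheory

variable {A : Type} [Fintype A] [DecidableEq A]

theorem local_rule [MeasurableSpace A] [MeasurableSingletonClass A] {n k : ℕ}
    (φ : (Fin n → Equiv.Perm A) → Fin n → A) (Nb : Fin n → Set (Fin n))
    (hdep : ∀ ω ω' i, (∀ j ∈ Nb i, ω j = ω' j) → φ ω i = φ ω' i)
    (hprop : ∀ ω i j, (SimpleGraph.cycleGraph n).Adj i j → φ ω i ≠ φ ω j)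
    (heq : ∀ (σ : Equiv.Perm A) ω, φ (fun i => σ * ω i) = σ ∘ φ ω)
    (hd : ∀ a b j, j ∈ Nb a → j ∈ Nb b → (SimpleGraph.cycleGraph n).dist a b ≤ k) :
    ∃ μ : Measure (Fin n → A), IsProbabilityMeasure μ ∧
      (∀ᵐ x ∂μ, ∀ i j : Fin n, (SimpleGraph.cycleGraph n).Adj i j → x i ≠ x j) ∧
      (∀ σ : Equiv.Perm A, μ.map (fun x : Fin n → A => σ ∘ x) = μ) ∧
      (∀ U V : Set (Fin n),
        (∀ a ∈ U, ∀ b ∈ V, k < (SimpleGraph.cycleGraph n).dist a b) →
        IndepFun (fun x : Fin n → A => fun a : U => x a)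
          (fun x : Fin n → A => fun b : V => x b) μ) := by
  classical
  letI : MeasurableSpace (Equiv.Perm A) := ⊤
  let ν : Measure (Equiv.Perm A) := uniformOn Set.univ
  let Pr : Measure (Fin n → Equiv.Perm A) := Measure.infinitePi fun _ => ν
  have mφ : Measurable φ := measurable_of_finite _
  refine ⟨Pr.map φ, Measure.isProbabilityMeasure_map mφ.aemeasurable, ?_, fun σ => ?_,
    fun U V hUV => ?_⟩
  · rw [ae_map_iff mφ.aemeasurable (Set.toFinite _).measurableSet]
    exact Filter.Eventually.of_forall hprop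
  · have h1 : MeasurePreserving (fun π : Equiv.Perm A => σ * π) ν ν := by
      refine ⟨measurable_of_finite _, Measure.ext fun E hE => ?_⟩
      rw [Measure.map_apply (measurable_of_finite _) hE]
      simp only [ν, uniformOn_univ]
      rw [measure_preimage_mul]
    have h2 : MeasurePreserving (fun (ω : Fin n → Equiv.Perm A) i => σ * ω i) Pr Pr := by
      simp only [Pr, Measure.infinitePi_eq_pi]
      exact measurePreserving_pi _ _ fun _ => h1
    rw [Measure.map_map (measurable_of_finite _) mφ]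
    conv_rhs => rw [← h2.map_eq]
    rw [Measure.map_map mφ (measurable_of_finite _)]
    congr 1
    funext ω
    exact (heq σ ω).symm
  · let S : Set (Fin n) → Set (Fin n) := fun U => {j | ∃ a ∈ U, j ∈ Nb a}
    have hdis : Disjoint (S U) (S V) := by
      rw [Set.disjoint_left]
      rintro j ⟨a, ha, h1⟩ ⟨b, hb, h2⟩
      exact absurd (hUV a ha b hb) (not_lt.mpr (hd a b j h1 h2))
    let g : (U : Set (Fin n)) → (S U → Equiv.Perm A) → (U → A) := fun U y a =>
      φ (fun i => if h : i ∈ S U then y ⟨i, h⟩ else 1) a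
    have hg : ∀ U : Set (Fin n), (g U ∘ fun (ω : Fin n → Equiv.Perm A) (i : S U) => ω i) =
        fun ω (a : U) => φ ω a := by
      intro U
      funext ω a
      refine hdep _ _ _ fun j hj => ?_
      have : j ∈ S U := ⟨a, a.2, hj⟩
      simp [this]
    have h := (BF.indepFun_restrict ν hdis).comp (measurable_of_finite (g U))
      (measurable_of_finite (g V))
    rw [hg, hg, indepFun_iff_measure_inter_preimage_eq_mul] at h
    rw [indepFun_iff_measure_inter_preimage_eq_mul]
    intro s t hs ht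
    rw [Measure.map_apply mφ (Set.toFinite _).measurableSet,
      Measure.map_apply mφ (Set.toFinite _).measurableSet,
      Measure.map_apply mφ (Set.toFinite _).measurableSet]
    exact h s t hs ht

def pick (c0 c1 c2 : A) (π : Equiv.Perm A) (a b : A) : A :=
  if π c0 ≠ a ∧ π c0 ≠ b then π c0 else if π c1 ≠ a ∧ π c1 ≠ b then π c1 else π c2

omit [Fintype A] in
theorem pick_ne {c0 c1 c2 : A} (h01 : c0 ≠ c1) (h02 : c0 ≠ c2) (h12 : c1 ≠ c2) (π : Equiv.Perm A)
    (a b : A) : pick c0 c1 c2 π a b ≠ a ∧ pick c0 c1 c2 π a b ≠ b := by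
  have e1 := π.injective.ne h01
  have e2 := π.injective.ne h02
  have e3 := π.injective.ne h12
  unfold pick
  split_ifs with h h'
  · exact h
  · exact h'
  · constructor <;> rintro rfl <;> grind

omit [Fintype A] in
theorem pick_eq (c0 c1 c2 : A) (σ π : Equiv.Perm A) (a b : A) :
    pick c0 c1 c2 (σ * π) (σ a) (σ b) = σ (pick c0 c1 c2 π a b) := by
  simp only [pick, Equiv.Perm.mul_apply, ne_eq, σ.apply_eq_iff_eq]
  split_ifs <;> rfl

theorem simple_cyc [MeasurableSpace A] [MeasurableSingletonClass A] (K k : ℕ) {c0 c1 c2 : A}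
    (h01 : c0 ≠ c1) (h02 : c0 ≠ c2) (h12 : c1 ≠ c2)
    (B : Equiv.Perm A → A → A) (C : Equiv.Perm A → Equiv.Perm A → A → A → A)
    (hB : ∀ π a, B π a ≠ a) (hC : ∀ π π' a e, C π π' a e ≠ e) (hBC : ∀ π π' a e, B π a ≠ C π π' a e)
    (eB : ∀ σ π a, B (σ * π) (σ a) = σ (B π a))
    (eC : ∀ σ π π' a e, C (σ * π) (σ * π') (σ a) (σ e) = σ (C π π' a e))
    (hk : 2 ≤ k) (hk' : 3 ≤ k ∨ ∀ π π' a a' e, C π π' a e = C π π' a' e) :
    ∃ μ : Measure (Fin (K + 3) → A), IsProbabilityMeasure μ ∧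
      (∀ᵐ x ∂μ, ∀ i j : Fin (K + 3), (SimpleGraph.cycleGraph (K + 3)).Adj i j → x i ≠ x j) ∧
      (∀ σ : Equiv.Perm A, μ.map (fun x : Fin (K + 3) → A => σ ∘ x) = μ) ∧
      (∀ U V : Set (Fin (K + 3)),
        (∀ a ∈ U, ∀ b ∈ V, k < (SimpleGraph.cycleGraph (K + 3)).dist a b) →
        IndepFun (fun x : Fin (K + 3) → A => fun a : U => x a)
          (fun x : Fin (K + 3) → A => fun b : V => x b) μ) := by
  let φ : (Fin (K + 3) → Equiv.Perm A) → Fin (K + 3) → A := fun ω i =>
    if K % 2 = 0 ∧ i.val = K + 2 then C (ω (i - 1)) (ω i) (ω (i - 1 - 1) c0) (ω (i + 1) c0)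
    else if K % 2 = 0 ∧ i.val = K + 1 then B (ω i) (ω (i - 1) c0)
    else if i.val % 2 = 0 then ω i c0
    else pick c0 c1 c2 (ω i) (ω (i - 1) c0) (ω (i + 1) c0)
  have hadj : ∀ i : Fin (K + 3), (SimpleGraph.cycleGraph (K + 3)).Adj i (i + 1) := by
    intro i
    rw [SimpleGraph.cycleGraph_adj]
    simp
  have d1 : ∀ i : Fin (K + 3), (SimpleGraph.cycleGraph (K + 3)).dist i (i + 1) = 1 := fun i =>
    SimpleGraph.dist_eq_one_iff_adj.mpr (hadj i)
  have d2 : ∀ i : Fin (K + 3), (SimpleGraph.cycleGraph (K + 3)).dist i (i - 1) = 1 := fun i => by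
    have := d1 (i - 1)
    rwa [sub_add_cancel, SimpleGraph.dist_comm] at this
  have tri : ∀ a j b : Fin (K + 3), (SimpleGraph.cycleGraph (K + 3)).dist a b ≤
      (SimpleGraph.cycleGraph (K + 3)).dist a j + (SimpleGraph.cycleGraph (K + 3)).dist j b :=
    fun a j b => (SimpleGraph.cycleGraph_connected (n := K + 2)).dist_triangle
  refine local_rule φ (fun i => {j | j = i ∨ j = i + 1 ∨ j = i - 1 ∨
    (3 ≤ k ∧ i.val = K + 2 ∧ j = i - 1 - 1)}) (fun ω ω' i h => ?_) (fun ω i j hij => ?_)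
    (fun σ ω => ?_) (fun a b j ha hb => ?_)
  · have e0 := h i (Or.inl rfl)
    have e1 := h (i + 1) (Or.inr (Or.inl rfl))
    have e2 := h (i - 1) (Or.inr (Or.inr (Or.inl rfl)))
    simp only [φ, e0, e1, e2]
    split_ifs with h1
    · rcases hk' with h3 | h3
      · rw [h (i - 1 - 1) (Or.inr (Or.inr (Or.inr ⟨h3, h1.2, rfl⟩)))]
      · exact h3 _ _ _ _ _
    all_goals rfl
  · have key : ∀ i, φ ω i ≠ φ ω (i + 1) := by
      intro i
      have hv : ((i + 1).val = i.val + 1 ∧ i.val < K + 2) ∨ ((i + 1).val = 0 ∧ i.val = K + 2) := by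
        have := i.2
        rw [Fin.val_add_one]
        split_ifs with h
        · exact Or.inr ⟨rfl, by rw [h]; rfl⟩
        · refine Or.inl ⟨rfl, ?_⟩
          have : i.val ≠ K + 2 := fun e => h (Fin.ext e)
          omega
      simp only [φ, add_sub_cancel_right]
      split_ifs
      all_goals first
        | omega
        | exact hC _ _ _ _
        | exact hBC _ _ _ _
        | exact (hB _ _).symm
        | exact (pick_ne h01 h02 h12 _ _ _).1.symm
        | exact (pick_ne h01 h02 h12 _ _ _).2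
    rw [SimpleGraph.cycleGraph_adj] at hij
    rcases hij with h | h
    · have := key j
      rw [← h, add_sub_cancel] at this
      exact this.symm
    · have := key i
      rwa [← h, add_sub_cancel] at this
  · funext i
    simp only [φ, Function.comp_apply, Equiv.Perm.mul_apply, eB, eC, pick_eq]
    split_ifs <;> rfl
  · have key : ∀ a : Fin (K + 3), (j = a ∨ j = a + 1 ∨ j = a - 1 ∨
        (3 ≤ k ∧ a.val = K + 2 ∧ j = a - 1 - 1)) →
        (SimpleGraph.cycleGraph (K + 3)).dist a j ≤ 1 ∨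
          (3 ≤ k ∧ a.val = K + 2 ∧ (SimpleGraph.cycleGraph (K + 3)).dist a j ≤ 2) := by
      rintro a (rfl | rfl | rfl | ⟨h1, h2, rfl⟩)
      · simp
      · exact Or.inl (d1 a).le
      · exact Or.inl (d2 a).le
      · refine Or.inr ⟨h1, h2, ?_⟩
        have := tri a (a - 1) (a - 1 - 1)
        rw [d2, d2] at this
        exact this
    have t := tri a j b
    rw [SimpleGraph.dist_comm (u := j)] at t
    rcases key a ha with h | ⟨h1, h2, h⟩ <;> rcases key b hb with h' | ⟨h1', h2', h'⟩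
    · omega
    · omega
    · omega
    · have : a = b := Fin.ext (by omega)
      simp [this]

end Pool.Agent.H444Z.Cyc
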