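import Pool.Agent.H444Z.Cyc.Alg

set_option autoImplicit false
set_option maxHeartbeats 400000

namespace Pool.Agent.H444Z.Cyc

variable {A : Type}

def cL (F : List A → List A → ℝ) (u : List A) : S A := fun v => F v u
def cR (F : List A → List A → ℝ) (v : List A) : S A := fun u => F v u

@[simp] theorem cL_ap (F : List A → List A → ℝ) (u v : List A) : cL F u v = F v u := rfl
@[simp] theorem cR_ap (F : List A → List A → ℝ) (u v : List A) : cR F v u = F v u := rfl

def gcS (w : List A) (K : List A → List A → S A) : S A := fun u => gc w (fun v1 v2 => K v1 v2 u)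

theorem lin_gc (R : S A →ₗ[ℝ] S A) (w : List A) : ∀ K : List A → List A → S A,
    R (gcS w K) = gcS w (fun v1 v2 => R (K v1 v2)) := by
  induction w with
  | nil => intro K; rfl
  | cons a w ih =>
    intro K
    have e : ∀ K : List A → List A → S A,
        gcS (a :: w) K = K [] (a :: w) + gcS w (fun u r => K (a :: u) r) := fun K => rfl
    rw [e, e, map_add, ih]

theorem Rz.sc' {L : S A →ₗ[ℝ] S A} (h : Rz L) (l : ℕ → ℝ) (f : S A) (w : List A) :
    L (sc l f) w = l (w.length - 1) * L f w := by
  cases w with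
  | nil => simp [h.h0]
  | cons a w => rw [h.h1]; simp

theorem uniqT {L R : S A →ₗ[ℝ] S A} (hL : Rz L) (hR : Rz R) {t : ℝ} (t0 : 0 < t) (t1 : t < 1)
    (F F' src : List A → List A → ℝ)
    (h : ∀ v u, (1 - t ^ (v.length + u.length + 1)) * F v u =
      t ^ (u.length + 1) * L (cL F u) v + R (cR F v) u + src v u)
    (h' : ∀ v u, (1 - t ^ (v.length + u.length + 1)) * F' v u =
      t ^ (u.length + 1) * L (cL F' u) v + R (cR F' v) u + src v u) (v u : List A) :
    F v u = F' v u := by
  have key : ∀ n, ∀ v u : List A, v.length + u.length < n → F v u = F' v u := by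
    intro n
    induction n with
    | zero => intro v u hh; omega
    | succ n ih =>
      intro v u hh
      have e1 := hL.van (f := cL F u - cL F' u) (n := v.length)
        (fun w hw => by simp [ih w u (by omega)]) v (Nat.lt_succ_self _)
      have e2 := hR.van (f := cR F v - cR F' v) (n := u.length)
        (fun w hw => by simp [ih v w (by omega)]) u (Nat.lt_succ_self _)
      rw [map_sub, sub_ap, sub_eq_zero] at e1 e2
      have := h v u
      rw [e1, e2, ← h' v u] at this
      exact mul_left_cancel₀ (pow_ne t0 t1 _ (by omega)).ne' this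
  exact key _ v u (Nat.lt_succ_self _)

theorem prod_L {L : S A →ₗ[ℝ] S A} (hL : Rz L) {t : ℝ} {α : S A} (hα : α - T t α = L α)
    (c : ℕ → ℕ → ℝ) (β : S A) (v u : List A) :
    L (cL (fun v u => c v.length u.length * α v * β u) u) v =
      c (v.length - 1) u.length * (1 - t ^ v.length) * α v * β u := by
  have e : cL (fun v u => c v.length u.length * α v * β u) u =
      sc (fun k => c k u.length * β u) α := S.ext fun w => by simp; ring
  rw [e, hL.sc', ← hα]; simp; ring

theorem prod_R {L : S A →ₗ[ℝ] S A} (hL : Rz L) {t : ℝ} {β : S A} (hβ : β - T t β = L β)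
    (c : ℕ → ℕ → ℝ) (α : S A) (v u : List A) :
    L (cR (fun v u => c v.length u.length * α v * β u) v) u =
      c v.length (u.length - 1) * (1 - t ^ u.length) * α v * β u := by
  have e : cR (fun v u => c v.length u.length * α v * β u) v =
      sc (fun k => c v.length k * α v) β := S.ext fun w => by simp
  rw [e, hL.sc', ← hβ]; simp; ring

noncomputable def cS (t : ℝ) (k i : ℕ) : ℝ := t ^ k / (1 - t ^ (k + i + 1))

theorem prodS {L R : S A →ₗ[ℝ] S A} (hL : Rz L) (hR : Rz R) {t : ℝ} (t0 : 0 < t) (t1 : t < 1)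
    {α β : S A} (hα : α - T t α = L α) (hβ : β - T t β = R β) (α0 : α [] = 1) (β0 : β [] = 1)
    (v u : List A) :
    (1 - t ^ (v.length + u.length + 1)) * (cS t v.length u.length * α v * β u) =
      t ^ (u.length + 1) * L (cL (fun v u => cS t v.length u.length * α v * β u) u) v +
        R (cR (fun v u => cS t v.length u.length * α v * β u) v) u + (1 : S A) v * (1 : S A) u := by
  rw [prod_L hL hα, prod_R hR hβ]
  have p := fun n => (pow_ne t0 t1 (n + 1) (by omega)).ne'
  rcases v with _ | ⟨a, v⟩ <;> rcases u with _ | ⟨b, u⟩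
  · have := p 0
    simp [cS, α0, β0] at this ⊢
    field_simp
  · have h1 := p u.length
    have h2 := p (u.length + 1)
    simp only [cS, List.length_cons, List.length_nil, one_cons, one_nil, zero_add,
      Nat.add_sub_cancel, pow_zero, sub_self]
    field_simp
    ring
  · have h1 := p v.length
    have h2 := p (v.length + 1)
    simp only [cS, List.length_cons, List.length_nil, one_cons, one_nil, add_zero,
      Nat.add_sub_cancel, pow_zero, sub_self]
    field_simp
    ring
  · have h1 := p (v.length + u.length + 1)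
    have h2 := p (v.length + u.length + 2)
    simp only [cS, List.length_cons, one_cons, Nat.add_sub_cancel]
    rw [show v.length + 1 + (u.length + 1) + 1 = v.length + u.length + 2 + 1 by ring,
      show v.length + (u.length + 1) + 1 = v.length + u.length + 1 + 1 by ring,
      show v.length + 1 + u.length + 1 = v.length + u.length + 1 + 1 by ring]
    field_simp
    ring

noncomputable def cyc (F : List A → List A → ℝ) (M : S A) : S A :=
  fun w => gc w (fun u r => (M * cL F u) r)

theorem cyc_left (F : List A → List A → ℝ) (M α : S A) :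
    cyc (fun v u => (α * cL F u) v) M = cyc F (M * α) := S.ext fun w =>
  gc_congr _ _ _ fun u r _ => by rw [mul_assoc]; rfl

theorem cyc_right (F : List A → List A → ℝ) (M β : S A) :
    cyc (fun v u => (cR F v * β) u) M = cyc F (β * M) := S.ext fun w => by
  have e : ∀ u, cL (fun v u => (cR F v * β) u) u = gcS u (fun u1 u2 => β u2 • cL F u1) :=
    fun u => S.ext fun v => gc_congr _ _ _ fun _ _ _ => by simp [mul_comm]
  have := gc_assoc w (fun u1 u2 r => β u2 * (M * cL F u1) r)
  refine (gc_congr _ _ _ fun u r _ => ?_).trans (this.trans (gc_congr _ _ _ fun u r _ => ?_))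
  · have := lin_gc (LinearMap.mulLeft ℝ M) u (fun u1 u2 => β u2 • cL F u1)
    simp only [LinearMap.mulLeft_apply, mul_smul_comm] at this
    rw [e, this]; rfl
  · rw [mul_assoc]; rfl

theorem cyc_prod (α β M : S A) : cyc (fun v u => α v * β u) M = β * (M * α) := S.ext fun w =>
  gc_congr _ _ _ fun u r _ => by
    have : cL (fun v u => α v * β u) u = β u • α := S.ext fun v => by simp [mul_comm]
    rw [this, mul_smul_comm]; rfl

theorem cyc_add (F F' : List A → List A → ℝ) (M : S A) :
    cyc (fun v u => F v u + F' v u) M = cyc F M + cyc F' M := S.ext fun w => by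
  simp only [cyc, add_ap]
  rw [← gc_add]
  refine gc_congr _ _ _ fun u r _ => ?_
  have : cL (fun v u => F v u + F' v u) u = cL F u + cL F' u := rfl
  rw [this, mul_add]; rfl

theorem cyc_sumF {β : Type} (s : Finset β) (F : β → List A → List A → ℝ) (M : S A) :
    cyc (fun v u => ∑ b ∈ s, F b v u) M = ∑ b ∈ s, cyc (F b) M := S.ext fun w => by
  simp only [cyc, sum_ap]
  rw [← gc_sum]
  refine gc_congr _ _ _ fun u r _ => ?_
  have : cL (fun v u => ∑ b ∈ s, F b v u) u = ∑ b ∈ s, cL (F b) u := S.ext fun v => by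
    simp [sum_ap]
  rw [this, Finset.mul_sum, sum_ap]

theorem cyc_sumM {β : Type} (s : Finset β) (F : List A → List A → ℝ) (M : β → S A) :
    cyc F (∑ b ∈ s, M b) = ∑ b ∈ s, cyc F (M b) := S.ext fun w => by
  simp only [cyc, sum_ap]
  rw [← gc_sum]
  refine gc_congr _ _ _ fun u r _ => ?_
  rw [Finset.sum_mul, sum_ap]

theorem cyc_smulM (c : ℝ) (F : List A → List A → ℝ) (M : S A) :
    cyc F (c • M) = c • cyc F M := S.ext fun w => by
  simp only [cyc, smul_ap]
  rw [← gc_mul]
  refine gc_congr _ _ _ fun u r _ => ?_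
  rw [smul_mul_assoc, smul_ap]

theorem cyc_snoc (F : List A → List A → ℝ) (M : S A) (h : M [] = 0) (a : A) (w : List A) :
    cyc F M (w ++ [a]) = cyc (fun v u => F (v ++ [a]) u) M w + (cR F [] * dr a M) w := by
  simp only [cyc]
  rw [gc_snoc, mul_nil, h, zero_mul, add_zero, mul_ap, ← gc_add]
  refine gc_congr _ _ _ fun u r _ => ?_
  rw [mul_snoc]
  simp only [cL_ap, cR_ap, dr_ap]
  rw [mul_comm (F [] u)]
  rfl

theorem cyc_cons (F : List A → List A → ℝ) (M : S A) (h : M [] = 0) (a : A) (w : List A) :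
    cyc F M (a :: w) = cyc (fun v u => F v (a :: u)) M w + (dl a M * cL F []) w := by
  simp only [cyc, gc]
  rw [mul_cons, h, zero_mul, zero_add, add_comm]
  rfl

variable [DecidableEq A] [Fintype A]

noncomputable def D (f : S A) (v u : List A) : ℝ := ∑ a, f (v ++ a :: u)

theorem D_add (f g : S A) (v u : List A) : D (f + g) v u = D f v u + D g v u := by
  simp [D, Finset.sum_add_distrib]

theorem D_sub (f g : S A) (v u : List A) : D (f - g) v u = D f v u - D g v u := by
  simp [D, Finset.sum_sub_distrib]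

theorem D_smul (c : ℝ) (f : S A) (v u : List A) : D (c • f) v u = c * D f v u := by
  simp [D, Finset.mul_sum]

theorem D_T (t : ℝ) (f : S A) (v u : List A) :
    D (T t f) v u = t ^ (v.length + u.length + 1) * D f v u := by
  simp [D, Finset.mul_sum, add_assoc]

theorem cL_D_T (t : ℝ) (f : S A) (u : List A) :
    cL (D (T t f)) u = t ^ (u.length + 1) • T t (cL (D f) u) := S.ext fun v => by
  simp only [cL_ap, D_T, smul_ap, T_ap]; ring

theorem D_xmul (y : A) (f : S A) (v u : List A) :
    D (x y * f) v u = (1 : S A) v * f u + (x y * cL (D f) u) v := by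
  cases v with
  | nil => simp [D, x_mul_cons]
  | cons c v => by_cases h : c = y <;> simp [D, x_mul_cons, h]

theorem D_Xmul (f : S A) (v u : List A) :
    D (X * f) v u = (Fintype.card A : ℝ) * ((1 : S A) v * f u) + ((X : S A) * cL (D f) u) v := by
  cases v with
  | nil => simp [D, X_mul_cons]
  | cons c v => simp [D, X_mul_cons]

theorem D_mulx (y : A) (f : S A) (v u : List A) :
    D (f * x y) v u = (1 : S A) u * f v + (cR (D f) v * x y) u := by
  induction u using List.reverseRecOn with
  | nil => simp [D, mul_x_snoc]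
  | append_singleton u c _ =>
    have e : ∀ a, v ++ a :: (u ++ [c]) = (v ++ a :: u) ++ [c] := fun a => by simp
    simp only [D, e, mul_x_snoc, one_snoc]
    by_cases h : c = y <;> simp [h, D]

theorem D_d {t : ℝ} (hq : (Fintype.card A : ℝ) * t = (1 + t) ^ 2) (u v : List A) : ∀ f : S A,
    t * D (d t f) v u = t * (t ^ (u.length + 1) * d t (cL (D f) u) v +
      ((X : S A) * T t (cR (D f) v)) u + d t (cR (D f) v) u) +
        (1 + t) * ((1 : S A) u * f v - (1 : S A) v * T t f u) := by
  induction v with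
  | nil =>
    intro f
    have e : cR (D f) [] = ∑ a, dl a f := S.ext fun w => by simp [sum_ap, D]
    have e2 : ∑ a, (x a * T t (dl a f)) u * t = T t f u - (1 : S A) u * f [] := by
      cases u with
      | nil => simp
      | cons b u => simp [x_mul_cons, pow_succ]; ring
    rw [e]
    simp only [D, List.nil_append, d_cons, Y, sub_mul, smul_mul_assoc, sub_ap, smul_ap, map_sum,
      Finset.mul_sum, sum_ap, Finset.sum_add_distrib, Finset.sum_sub_distrib, d_nil, one_nil]
    rw [← Finset.sum_mul] at e2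
    rw [← Finset.mul_sum]
    linear_combination (-(1 + t)) * e2
  | cons c v ih =>
    intro f
    have e1 : D (d t f) (c :: v) u = D (d t (dl c f)) v u + D (Y t c * T t (dl c f)) v u := by
      rw [← D_add, ← dl_d]; rfl
    have e2 : dl c (cL (D f) u) = cL (D (dl c f)) u := rfl
    have e3 : cR (D f) (c :: v) = cR (D (dl c f)) v := rfl
    rw [e1, mul_add, ih, d_cons, e2, e3, Y, sub_mul, smul_mul_assoc, D_sub, D_smul, D_Xmul, D_xmul,
      cL_D_T]
    simp only [sub_mul, smul_mul_assoc, mul_smul_comm, sub_ap, smul_ap, one_cons, dl_ap]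
    linear_combination ((1 : S A) v * T t (dl c f) u) * hq

theorem D_opF {t : ℝ} (hq : (Fintype.card A : ℝ) * t = (1 + t) ^ 2) (f : S A) (v u : List A) :
    D (opF t f) v u = t ^ (u.length + 1) * opF t (cL (D f) u) v + opF t (cR (D f) v) u +
      ((1 + t) * ((1 : S A) u * f v) + t * (1 + t) * ((1 : S A) v * T t f u)) := by
  have := D_d hq u v f
  simp only [opF_ap, D_smul, D_add, D_Xmul, cL_D_T, mul_smul_comm, smul_ap, add_ap]
  linear_combination this + ((1 : S A) v * T t f u) * hq

theorem D_opG {t : ℝ} (hq : (Fintype.card A : ℝ) * t = (1 + t) ^ 2) (y a : A) (f : S A)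
    (v u : List A) :
    D (opA t y f - t • (f * x a)) v u =
      t ^ (u.length + 1) * opA t y (cL (D f) u) v + opB t a (cR (D f) v) u +
      ((1 : S A) u * f v + t ^ 2 * ((1 : S A) v * T t f u)) := by
  have := D_opF hq f v u
  rw [opF_ap, opF_ap, opF_ap] at this
  simp only [opA_ap, opB_ap, D_sub, this, D_smul t (x y * _), D_smul t (_ * x a), D_xmul, D_mulx,
    cL_D_T, mul_smul_comm, smul_ap, sub_ap]
  ring

namespace Sol

variable (s : Sol A)

noncomputable def cB (t : ℝ) (k i : ℕ) : ℝ :=
  (1 + t) * (1 - t ^ (k + i + 2)) / ((1 - t ^ (k + 1)) * (1 - t ^ (i + 1)))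

theorem D_B (hq : (Fintype.card A : ℝ) * s.t = (1 + s.t) ^ 2) (v u : List A) :
    D s.B v u = cB s.t v.length u.length * s.B v * s.B u := by
  refine uniqT (rzF s.t) (rzF s.t) s.t0 s.t1 (D s.B)
    (fun v u => cB s.t v.length u.length * s.B v * s.B u)
    (fun v u => (1 + s.t) * ((1 : S A) u * s.B v) + s.t * (1 + s.t) * ((1 : S A) v * T s.t s.B u))
    (fun v u => ?_) (fun v u => ?_) v u
  · rw [← D_opF hq, ← s.hB, D_sub, D_T]; ring
  · rw [prod_L (rzF s.t) s.hB, prod_R (rzF s.t) s.hB]
    have p := fun n => (pow_ne s.t0 s.t1 (n + 1) (by omega)).ne'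
    have p0 : 1 - s.t ≠ 0 := by simpa using p 0
    generalize s.t = t at *
    rcases v with _ | ⟨a, v⟩ <;> rcases u with _ | ⟨b, u⟩
    · simp [cB, s.B0]
      field_simp
      ring
    · have h1 := p u.length
      have h2 := p (u.length + 1)
      simp only [cB, List.length_cons, List.length_nil, one_cons, one_nil, zero_add,
        Nat.add_sub_cancel, pow_zero, sub_self, s.B0, T_ap, pow_one]
      field_simp
      ring
    · have h1 := p v.length
      have h2 := p (v.length + 1)
      simp only [cB, List.length_cons, List.length_nil, one_cons, one_nil, add_zero, zero_add,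
        Nat.add_sub_cancel, pow_zero, sub_self, s.B0, T_ap, pow_one]
      field_simp
      ring
    · have h1 := p v.length
      have h2 := p (v.length + 1)
      have h3 := p u.length
      have h4 := p (u.length + 1)
      simp only [cB, List.length_cons, one_cons, Nat.add_sub_cancel]
      field_simp
      ring

noncomputable def S1 (a : A) (v u : List A) : ℝ := cS s.t v.length u.length * s.z a v * s.b a u
noncomputable def S2 (a : A) (v u : List A) : ℝ :=
  s.t ^ 2 * (cS s.t v.length u.length * s.f a v * s.v a u)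

theorem D_G (hq : (Fintype.card A : ℝ) * s.t = (1 + s.t) ^ 2) (y a : A) (v u : List A) :
    D (s.G y a) v u = (s.G y a * cL (s.S1 a) u) v + (cR (s.S2 y) v * s.G y a) u := by
  refine uniqT (rzA s.t y) (rzB s.t a) s.t0 s.t1 (D (s.G y a))
    (fun v u => (s.G y a * cL (s.S1 a) u) v + (cR (s.S2 y) v * s.G y a) u)
    (fun v u => (1 : S A) u * s.G y a v + s.t ^ 2 * ((1 : S A) v * T s.t (s.G y a) u))
    (fun v u => ?_) (fun v u => ?_) v u
  · rw [← D_opG hq, ← s.G_del, D_sub, D_T]; ring
  · have eL : cL (fun v u => (s.G y a * cL (s.S1 a) u) v + (cR (s.S2 y) v * s.G y a) u) u =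
        s.G y a * cL (s.S1 a) u + gcS u (fun u1 u2 => s.G y a u2 • cL (s.S2 y) u1) :=
      S.ext fun v => congrArg _ (gc_congr _ _ _ fun _ _ _ => by simp [mul_comm])
    have eR : cR (fun v u => (s.G y a * cL (s.S1 a) u) v + (cR (s.S2 y) v * s.G y a) u) v =
        gcS v (fun v1 v2 => s.G y a v1 • cR (s.S1 a) v2) + cR (s.S2 y) v * s.G y a := rfl
    let W1 : S A := fun v2 => opB s.t a (cR (s.S1 a) v2) u
    let W2 : S A := fun u1 => opA s.t y (cL (s.S2 y) u1) v
    have r1 : opB s.t a (gcS v (fun v1 v2 => s.G y a v1 • cR (s.S1 a) v2)) u =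
        (s.G y a * W1) v := by
      rw [lin_gc]; simp only [map_smul]; rfl
    have r2 : opA s.t y (gcS u (fun u1 u2 => s.G y a u2 • cL (s.S2 y) u1)) v =
        (W2 * s.G y a) u := by
      rw [lin_gc]; simp only [map_smul]
      exact gc_congr _ _ _ fun _ _ _ => by simp [W2, mul_comm]
    have z1 : cL (s.S1 a) u = s.t ^ (u.length + 1) • (T s.t (cL (s.S1 a) u) +
        opR s.t a (cL (s.S1 a) u)) + W1 + (1 : S A) u • 1 := S.ext fun v => by
      have := prodS (rzR s.t a) (rzB s.t a) s.t0 s.t1 (s.hz a) (s.hb a) (s.z0 a) (s.b0 a) v u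
      change _ * s.S1 a v u = _ * opR s.t a (cL (s.S1 a) u) v + W1 v + _ at this
      simp only [add_ap, smul_ap, T_ap, cL_ap]
      linear_combination this
    have z2 : cR (s.S2 y) v = s.t ^ (v.length + 1) • T s.t (cR (s.S2 y) v) + s.t • T s.t W2 +
        opL s.t y (cR (s.S2 y) v) + (s.t ^ 2 * (1 : S A) v) • 1 := S.ext fun u => by
      have := prodS (rzA s.t y) (rzL s.t y) s.t0 s.t1 (s.hf y) (s.hv y) (s.f0 y) (s.v0 y) v u
      have a1 : cL (s.S2 y) u = s.t ^ 2 •
        cL (fun v u => cS s.t v.length u.length * s.f y v * s.v y u) u := rfl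
      have a2 : cR (s.S2 y) v = s.t ^ 2 •
        cR (fun v u => cS s.t v.length u.length * s.f y v * s.v y u) v := rfl
      simp only [add_ap, smul_ap, T_ap, W2, a1, a2, map_smul, cR_ap, S2]
      linear_combination s.t ^ 2 * this
    have q1 := congrArg (fun g : S A => (s.G y a * g) v) z1
    have q2 := congrArg (fun g : S A => (g * T s.t (s.G y a)) u) z2
    have q3 : (T s.t W2 * T s.t (s.G y a)) u = s.t ^ u.length * (W2 * s.G y a) u := by
      rw [← map_mul, T_ap]
    have q4 : (T s.t (cR (s.S2 y) v) * T s.t (s.G y a)) u =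
        s.t ^ u.length * (cR (s.S2 y) v * s.G y a) u := by rw [← map_mul, T_ap]
    have q5 : (T s.t (s.G y a) * T s.t (cL (s.S1 a) u)) v =
        s.t ^ v.length * (s.G y a * cL (s.S1 a) u) v := by rw [← map_mul, T_ap]
    rw [eL, eR, map_add, map_add, add_ap, add_ap, r1, r2, leibA s.t y a, leibB s.t y a, ← s.G_del]
    simp only [mul_add, add_mul, sub_mul, mul_sub, mul_smul_comm, smul_mul_assoc, add_ap, sub_ap,
      smul_ap, mul_one, one_mul, q3, q4, q5] at q1 q2 ⊢
    linear_combination q1 + q2

theorem lam (y : A) (v u : List A) :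
    (1 : S A) v * (1 : S A) u + (cR (s.S1 y) v * x y) u + (x y * cL (s.S2 y) u) v =
      T s.t (s.z y) v * T s.t⁻¹ (s.v y) u := by
  have e1 : cR (s.S1 y) v = sc (fun i => cS s.t v.length i * s.z y v) (s.b y) := rfl
  have e2 : cL (s.S2 y) u = sc (fun k => s.t ^ 2 * cS s.t k u.length * s.v y u) (s.f y) :=
    S.ext fun w => by simp [S2]; ring
  have h1 := (rz_right y).sc' (fun i => cS s.t v.length i * s.z y v) (s.b y) u
  have h2 := (rz_left y).sc' (fun k => s.t ^ 2 * cS s.t k u.length * s.v y u) (s.f y) v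
  simp only [LinearMap.mulRight_apply, LinearMap.mulLeft_apply] at h1 h2
  have h3 : (s.b y * x y) u = (s.t⁻¹ ^ u.length - 1) * s.v y u := by
    have := congrArg (fun g : S A => g u) (s.v_eq' y)
    simp only [T_ap, add_ap] at this
    linear_combination -this
  have t0 := s.t0.ne'
  have h4 : (x y * s.f y) v = s.t⁻¹ * (1 - s.t ^ v.length) * s.z y v := by
    have := congrArg (fun g : S A => g v) (s.z_eq y)
    simp only [T_ap, sub_ap, smul_ap] at this
    field_simp
    linear_combination -this
  rw [e1, e2, h1, h2, h3, h4]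
  have p := fun n => (pow_ne s.t0 s.t1 (n + 1) (by omega)).ne'
  have z0 := s.z0 y
  have v0 := s.v0 y
  generalize s.t = t at *
  rcases v with _ | ⟨a, v⟩ <;> rcases u with _ | ⟨b, u⟩
  · simp [z0, v0]
  · have h1 := p u.length
    simp only [cS, List.length_cons, List.length_nil, one_cons, one_nil, zero_add,
      Nat.add_sub_cancel, pow_zero, sub_self, T_ap, inv_pow]
    field_simp
    ring
  · have h1 := p v.length
    simp only [cS, List.length_cons, List.length_nil, one_cons, one_nil, add_zero,
      Nat.add_sub_cancel, pow_zero, sub_self, T_ap, inv_pow]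
    field_simp
    ring
  · have h1 := p (v.length + u.length + 1)
    simp only [cS, List.length_cons, one_cons, Nat.add_sub_cancel, T_ap, inv_pow]
    rw [show v.length + (u.length + 1) + 1 = v.length + u.length + 1 + 1 by ring,
      show v.length + 1 + u.length + 1 = v.length + u.length + 1 + 1 by ring]
    field_simp
    ring

noncomputable def Mid (c : ℝ) (Γ : A → A → S A) (y e : A) : S A :=
  c ^ 2 • (x y * (Γ y e * x e))

noncomputable def Tr (c : ℝ) (Γ : A → A → S A) (w : List A) : ℝ :=
  ∑ y, ∑ e, cyc (fun v u => s.G e y (v ++ u)) (Mid c Γ y e) w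

noncomputable def Tq (c : ℝ) (Γ : A → A → S A) (a : A) (w : List A) : ℝ :=
  c * Γ a a w + ∑ y, ∑ e, cyc (fun v u => s.G e y (v ++ a :: u)) (Mid c Γ y e) w

theorem sumL {s : Sol A} {c : ℝ} {Γ : A → A → S A} (h : s.IsL c Γ) (a : A) :
    c ^ 2 • ∑ y, s.G a y * (x y * Γ y a) = c • Γ a a := by
  rw [h a a, s.G_self, zero_add, smul_smul, pow_two]

theorem sumR {s : Sol A} {c : ℝ} {Γ : A → A → S A} (h : s.IsR c Γ) (a : A) :
    c ^ 2 • ∑ y, Γ a y * (x y * s.G y a) = c • Γ a a := by
  rw [h a a, s.G_self, zero_add, smul_smul, pow_two]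

theorem Tr_snoc {s : Sol A} {c : ℝ} {Γ : A → A → S A} (h : s.IsL c Γ) (a : A) (w : List A) :
    s.Tr c Γ (w ++ [a]) = s.Tq c Γ a w := by
  have e : ∀ y e, dr a (Mid c Γ y e) = if a = e then c ^ 2 • (x y * Γ y e) else 0 :=
    fun y e => S.ext fun r => by
      simp only [Mid, dr_ap, smul_ap, ← mul_assoc (x y), mul_x_snoc]
      split_ifs <;> simp
  have e2 : ∀ y e, cR (fun v u => s.G e y (v ++ u)) [] = s.G e y := fun _ _ => rfl
  have := congrArg (fun g : S A => g w) (sumL h a)
  simp only [smul_ap, sum_ap] at this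
  simp only [Tr, Tq, cyc_snoc _ _ (show Mid c Γ _ _ [] = 0 by simp [Mid]), e, e2,
    Finset.sum_add_distrib, List.append_assoc, List.singleton_append]
  rw [add_comm, ← this, Finset.mul_sum]
  congr 1
  refine Finset.sum_congr rfl fun y _ => ?_
  rw [Finset.sum_eq_single a] <;> simp +contextual [eq_comm]

theorem Tr_cons {s : Sol A} {c : ℝ} {Γ : A → A → S A} (h : s.IsR c Γ) (a : A) (w : List A) :
    s.Tr c Γ (a :: w) = s.Tq c Γ a w := by
  have e : ∀ y e, dl a (Mid c Γ y e) = if a = y then c ^ 2 • (Γ y e * x e) else 0 :=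
    fun y e => S.ext fun r => by
      simp only [Mid, dl_ap, smul_ap, x_mul_cons]
      split_ifs <;> simp
  have e2 : ∀ y e, cL (fun v u => s.G e y (v ++ u)) [] = s.G e y :=
    fun _ _ => S.ext fun v => by simp
  have := congrArg (fun g : S A => g w) (sumR h a)
  simp only [smul_ap, sum_ap] at this
  simp only [Tr, Tq, cyc_cons _ _ (show Mid c Γ _ _ [] = 0 by simp [Mid]), e, e2,
    Finset.sum_add_distrib]
  rw [add_comm, ← this, Finset.mul_sum]
  congr 1
  rw [Finset.sum_eq_single a] <;> simp +contextual [eq_comm, mul_assoc]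

theorem Tq_sum {s : Sol A} (hq : (Fintype.card A : ℝ) * s.t = (1 + s.t) ^ 2) {c : ℝ}
    {Γ : A → A → S A} (hL : s.IsL c Γ) (hR : s.IsR c Γ) (w : List A) :
    ∑ a, s.Tq c Γ a w = c * (∑ y, T s.t⁻¹ (s.v y) * (Γ y y * T s.t (s.z y))) w := by
  have e1 : ∀ y e, ∑ a, cyc (fun v u => s.G e y (v ++ a :: u)) (Mid c Γ y e) =
      cyc (s.S1 y) (Mid c Γ y e * s.G e y) + cyc (s.S2 e) (s.G e y * Mid c Γ y e) := by
    intro y e
    rw [← cyc_sumF, ← cyc_left, ← cyc_right, ← cyc_add]
    congr 1
    funext v u
    exact s.D_G hq e y v u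
  have e2 : ∀ y, ∑ e, Mid c Γ y e * s.G e y = c • (x y * Γ y y) := fun y => by
    rw [← mul_smul_comm, ← sumR hR y]
    simp only [Mid, Finset.smul_sum, Finset.mul_sum, smul_mul_assoc, mul_smul_comm, mul_assoc]
  have e3 : ∀ e, ∑ y, s.G e y * Mid c Γ y e = c • (Γ e e * x e) := fun e => by
    rw [← smul_mul_assoc, ← sumL hL e]
    simp only [Mid, Finset.smul_sum, Finset.sum_mul, smul_mul_assoc, mul_smul_comm, mul_assoc]
  have e4 : ∀ y, T s.t⁻¹ (s.v y) * (Γ y y * T s.t (s.z y)) =
      Γ y y + cyc (s.S1 y) (x y * Γ y y) + cyc (s.S2 y) (Γ y y * x y) := fun y => by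
    have : Γ y y = cyc (fun v u => (1 : S A) v * (1 : S A) u) (Γ y y) := by
      rw [cyc_prod]; simp
    rw [← cyc_prod, ← cyc_right (s.S1 y), ← cyc_left (s.S2 y)]
    nth_rewrite 2 [this]
    rw [← cyc_add, ← cyc_add]
    congr 1
    funext v u
    exact (s.lam y v u).symm
  have e5 : ∑ a, ∑ y, ∑ e, cyc (fun v u => s.G e y (v ++ a :: u)) (Mid c Γ y e) =
      ∑ y, c • cyc (s.S1 y) (x y * Γ y y) + ∑ y, c • cyc (s.S2 y) (Γ y y * x y) := by
    rw [Finset.sum_comm]
    simp only [Finset.sum_comm (s := Finset.univ) (t := Finset.univ)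
      (f := fun a e => cyc (fun v u => s.G e _ (v ++ a :: u)) (Mid c Γ _ e)), e1,
      Finset.sum_add_distrib]
    congr 1
    · simp only [← cyc_sumM, e2, cyc_smulM]
    · rw [Finset.sum_comm]
      simp only [← cyc_sumM, e3, cyc_smulM]
  have e6 := congrArg (fun g : S A => g w) e5
  simp only [sum_ap, add_ap, smul_ap] at e6
  simp only [Tq, Finset.sum_add_distrib, e6, e4, sum_ap, add_ap, mul_add, Finset.mul_sum]
  ring

end Sol

end Pool.Agent.H444Z.Cyc
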